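import Pool.Agent.Q108.NRF.Pair

/-!
# Definitions for the statement
-/

set_option autoImplicit false

namespace Pool.Agent.Q108.NRF

open Pool.Agent.TH91.RF Pool.Agent.Q26.RF

universe u v w

/-- The data of an infinite finitely generated nilpotent group `G`: a finite generating set `S`, a
homomorphism `π` with finite kernel onto a group `Q`, and a rational Mal'cev completion `c` of
`Q`. (Such a `Q` is torsion-free, so that `Q` is the quotient of `G` by its torsion subgroup.) -/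
structure NilData (G : Type u) [Group G] (S : Set G) where
  nilpotent : Group.IsNilpotent G
  infinite : Infinite G
  finite : S.Finite
  gen : Subgroup.closure S = ⊤
  /-- the quotient -/
  Q : Type u
  [grp : Group Q]
  /-- the quotient map -/
  π : G →* Q
  surj : Function.Surjective π
  fin : Finite π.ker
  /-- the completion of the quotient -/
  c : MalcevCompletion Q

attribute [instance] NilData.grp

/-- `G₁` and `G₂` are virtually isomorphic (commensurable up to finite kernels): there are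
subgroups `H₁`, `H₂` of finite index and finite normal subgroups `N₁` of `H₁` and `N₂` of `H₂`
with `H₁ ⧸ N₁` isomorphic to `H₂ ⧸ N₂`. -/
def VirtIso (G₁ : Type u) (G₂ : Type v) [Group G₁] [Group G₂] : Prop :=
  ∃ (H₁ : Subgroup G₁) (H₂ : Subgroup G₂) (N₁ : Subgroup H₁) (N₂ : Subgroup H₂)
    (_ : N₁.Normal) (_ : N₂.Normal), H₁.FiniteIndex ∧ H₂.FiniteIndex ∧ Finite N₁ ∧ Finite N₂ ∧
      Nonempty ((H₁ ⧸ N₁) ≃* (H₂ ⧸ N₂))

/-- The associated graded Lie algebras (for the lower central series) of two rational Lie algebras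
are isomorphic, by an isomorphism induced from a linear bijection `φ`. -/
def GradedIso (L₁ L₂ : Type) [LieRing L₁] [LieAlgebra ℚ L₁] [LieRing L₂] [LieAlgebra ℚ L₂] :
    Prop :=
  ∃ φ : L₁ ≃ₗ[ℚ] L₂,
    (∀ i : ℕ, (LieModule.lowerCentralSeries ℚ L₁ L₁ i).toSubmodule.map φ.toLinearMap =
      (LieModule.lowerCentralSeries ℚ L₂ L₂ i).toSubmodule) ∧
    ∀ i j : ℕ, ∀ x ∈ LieModule.lowerCentralSeries ℚ L₁ L₁ i,
      ∀ y ∈ LieModule.lowerCentralSeries ℚ L₁ L₁ j,
        φ ⁅x, y⁆ - ⁅φ x, φ y⁆ ∈ LieModule.lowerCentralSeries ℚ L₂ L₂ (i + j + 2)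

theorem nonempty_data (G : Type u) [Group G] [hn : Group.IsNilpotent G] [hi : Infinite G]
    (S : Set G) (hS : S.Finite) (hgen : Subgroup.closure S = ⊤) : Nonempty (NilData G S) := by
  have hfg := fg_of hS hgen
  obtain ⟨T, hTn, hTf, hT⟩ := exists_tors G hfg
  have hq : Group.FG (G ⧸ T) := QuotientGroup.fg _
  obtain ⟨c⟩ := exists_completion (G ⧸ T) hq (quot_tf T hT)
  have hk : Finite (QuotientGroup.mk' T).ker := by
    rw [QuotientGroup.ker_mk']
    exact hTf
  exact ⟨{ nilpotent := hn, infinite := hi, finite := hS, gen := hgen, Q := G ⧸ T,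
           π := QuotientGroup.mk' T, surj := QuotientGroup.mk'_surjective T, fin := hk, c := c }⟩

/-- the completion of `G ⧸ ker π` -/
noncomputable def NilData.c' {G : Type u} [Group G] {S : Set G} (D : NilData G S) :
    MalcevCompletion (G ⧸ D.π.ker) :=
  restrict D.c (QuotientGroup.quotientKerEquivOfSurjective D.π D.surj).toMonoidHom
    (QuotientGroup.quotientKerEquivOfSurjective D.π D.surj).injective (fun g => ⟨1, one_pos, by
      obtain ⟨x, hx⟩ := (QuotientGroup.quotientKerEquivOfSurjective D.π D.surj).surjective g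
      rw [pow_one]
      exact ⟨x, hx⟩⟩)

theorem data_formula {G : Type u} [Group G] {S : Set G} (D : NilData G S) :
    ∃ e : ℕ, IsLeast (sepDims D.c.CLie) e ∧ 1 ≤ e ∧ e ≤ Module.finrank ℂ D.c.CLie ∧
      GrowthEquiv (rfGrowth S) (fun n => Nat.log 2 n ^ e) := by
  have := D.nilpotent
  have := D.infinite
  exact formula D.finite D.gen D.π.ker D.fin D.c'

theorem data_iff {G₁ : Type u} {G₂ : Type v} [Group G₁] [Group G₂] {S₁ : Set G₁} {S₂ : Set G₂}
    (D₁ : NilData G₁ S₁) (D₂ : NilData G₂ S₂) (e₁ e₂ : ℕ) (he₁ : IsLeast (sepDims D₁.c.CLie) e₁)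
    (he₂ : IsLeast (sepDims D₂.c.CLie) e₂) :
    GrowthEquiv (rfGrowth S₁) (rfGrowth S₂) ↔ e₁ = e₂ := by
  have := D₁.nilpotent
  have := D₁.infinite
  have := D₂.nilpotent
  have := D₂.infinite
  exact equiv_iff D₁.finite D₁.gen D₂.finite D₂.gen D₁.π.ker D₂.π.ker D₁.fin D₂.fin D₁.c' D₂.c'
    e₁ e₂ he₁ he₂

theorem data_iso {G₁ : Type u} {G₂ : Type v} [Group G₁] [Group G₂] {S₁ : Set G₁} {S₂ : Set G₂}
    (D₁ : NilData G₁ S₁) (D₂ : NilData G₂ S₂) (h : Nonempty (D₁.c.CLie ≃ₗ⁅ℂ⁆ D₂.c.CLie)) :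
    GrowthEquiv (rfGrowth S₁) (rfGrowth S₂) := by
  have := D₁.nilpotent
  have := D₁.infinite
  have := D₂.nilpotent
  have := D₂.infinite
  obtain ⟨φ⟩ := h
  exact main_iso D₁.finite D₁.gen D₂.finite D₂.gen D₁.π.ker D₂.π.ker D₁.fin D₂.fin D₁.c' D₂.c' φ

theorem data_virt {G₁ : Type u} {G₂ : Type v} [Group G₁] [Group G₂] {S₁ : Set G₁} {S₂ : Set G₂}
    (D₁ : NilData G₁ S₁) (D₂ : NilData G₂ S₂) (h : VirtIso G₁ G₂) :
    GrowthEquiv (rfGrowth S₁) (rfGrowth S₂) := by
  have := D₁.nilpotent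
  have := D₁.infinite
  have := D₂.nilpotent
  have := D₂.infinite
  obtain ⟨H₁, H₂, N₁, N₂, hN₁, hN₂, hH₁, hH₂, hf₁, hf₂, ⟨e⟩⟩ := h
  refine main_virtual D₁.finite D₁.gen D₂.finite D₂.gen H₁ H₂
    (e.toMonoidHom.comp (QuotientGroup.mk' N₁)) (QuotientGroup.mk' N₂)
    (e.surjective.comp (QuotientGroup.mk'_surjective N₁)) (QuotientGroup.mk'_surjective N₂) ?_ ?_
  · have h1 : (e.toMonoidHom.comp (QuotientGroup.mk' N₁)).ker = N₁ := by
      ext x
      rw [MonoidHom.mem_ker, MonoidHom.comp_apply]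
      constructor
      · intro h
        have h2 : e (QuotientGroup.mk' N₁ x) = e 1 := by rw [map_one]; exact h
        exact (QuotientGroup.eq_one_iff x).1 (e.injective h2)
      · intro h
        have h2 : QuotientGroup.mk' N₁ x = 1 := (QuotientGroup.eq_one_iff x).2 h
        rw [h2, map_one]
    rw [h1]
    exact hf₁
  · rw [QuotientGroup.ker_mk']
    exact hf₂

theorem infinite_of_growth {G : Type*} [Group G] {S : Set G}
    (ht : ∀ x : G, ∀ n : ℕ, 0 < n → x ^ n = 1 → x = 1) {k : ℕ}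
    (h : GrowthEquiv (rfGrowth S) (fun n => Nat.log 2 n ^ k)) : Infinite G := by
  by_contra hfin
  rw [not_infinite_iff_finite] at hfin
  have h1 : ∀ x : G, x = 1 := fun x => ht x (Nat.card G) Nat.card_pos pow_card_eq_one'
  have h2 : ∀ n, rfGrowth S n = 0 := fun n =>
    Nat.le_zero.1 (rf_le fun g hg _ => absurd (h1 g) hg)
  obtain ⟨C, hC, h3⟩ := h.2
  have h4 := h3 2
  rw [h2, mul_zero] at h4
  have h5 : Nat.log 2 2 = 1 := by norm_num
  simp only [h5, one_pow] at h4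
  omega

/-- The pair. -/
theorem pair' :
    ∃ (G₁ G₂ : Type) (_ : Group G₁) (_ : Group G₂) (S₁ : Set G₁) (S₂ : Set G₂)
      (D₁ : NilData G₁ S₁) (D₂ : NilData G₂ S₂),
      Function.Injective D₁.π ∧ Function.Injective D₂.π ∧
      Module.finrank ℚ D₁.c.QLie = 5 ∧ Module.finrank ℚ D₂.c.QLie = 5 ∧
      GradedIso D₁.c.QLie D₂.c.QLie ∧
      GrowthEquiv (rfGrowth S₁) (fun n => Nat.log 2 n ^ 5) ∧
      GrowthEquiv (rfGrowth S₂) (fun n => Nat.log 2 n ^ 4) ∧
      ¬ GrowthEquiv (rfGrowth S₁) (rfGrowth S₂) := by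
  obtain ⟨G₁, G₂, i₁, i₂, S₁, S₂, c₁, c₂, φ, hn₁, hn₂, hS₁, hg₁, hS₂, hg₂, ht₁, ht₂, hd₁, hd₂,
    hφ1, hφ2, g1, g2, g3⟩ := pair
  have hi₁ := infinite_of_growth ht₁ g1
  have hi₂ := infinite_of_growth ht₂ g2
  let D₁ : NilData G₁ S₁ :=
    { nilpotent := hn₁, infinite := hi₁, finite := hS₁, gen := hg₁, Q := G₁, π := MonoidHom.id G₁,
      surj := Function.surjective_id, fin := by rw [MonoidHom.ker_id]; infer_instance, c := c₁ }
  let D₂ : NilData G₂ S₂ :=
    { nilpotent := hn₂, infinite := hi₂, finite := hS₂, gen := hg₂, Q := G₂, π := MonoidHom.id G₂,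
      surj := Function.surjective_id, fin := by rw [MonoidHom.ker_id]; infer_instance, c := c₂ }
  exact ⟨G₁, G₂, i₁, i₂, S₁, S₂, D₁, D₂, Function.injective_id, Function.injective_id, hd₁, hd₂,
    ⟨φ, hφ1, hφ2⟩, g1, g2, g3⟩

end Pool.Agent.Q108.NRF
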