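import Pool.Agent.Q108.NRF.Form

/-!
# Groups with a given Mal'cev Lie algebra
-/

set_option autoImplicit false

namespace Pool.Agent.Q108.NRF

open Pool.Agent.TH91.RF Pool.Agent.Q26.RF Pool.Agent.Helper611.PcFun

attribute [local instance 100] LieRing.ofAssociativeRing

theorem nilpotent_of_unipotent {N : ℕ} {G : Type*} [Group G]
    (ρ : G →* Matrix (Fin N) (Fin N) ℚ) (hinj : Function.Injective ρ)
    (hρ : ∀ g, ρ g - 1 ∈ (matFilt N).F 1) : Group.IsNilpotent G := by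
  apply nilpotent_of_separates (K := ℚ) (N + 1)
  intro x hx
  apply hinj
  have key : ∀ k : ℕ, ∀ i j : Fin N, (j : ℕ) < k →
      (fun g => ρ g i j) ∈ P ℚ (⊤ : Subgroup G) k := by
    intro k
    induction k with
    | zero => intro i j hj; omega
    | succ k ih =>
      intro i j hj
      rw [mem_P_succ]
      intro u _
      have e : D ℚ u (fun g => ρ g i j) = ∑ l, (ρ u - 1) l j • (fun g => ρ g i l) := by
        funext g
        rw [D_apply, Finset.sum_apply]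
        simp only [Pi.smul_apply, smul_eq_mul]
        have h1 : ρ (g * u) i j - ρ g i j = (ρ g * (ρ u - 1)) i j := by
          rw [map_mul, mul_sub, mul_one, Matrix.sub_apply]
        rw [h1, Matrix.mul_apply]
        exact Finset.sum_congr rfl fun l _ => mul_comm _ _
      rw [e]
      refine Submodule.sum_mem _ fun l _ => ?_
      by_cases hl : (l : ℕ) < k
      · exact Submodule.smul_mem _ _ (ih i l hl)
      · have h1 : (ρ u - 1) l j = 0 := (mem_matFilt.1 (hρ u)) l j (by omega)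
        rw [h1, zero_smul]
        exact Submodule.zero_mem _
  ext i j
  exact hx _ (P_mono _ (by have := j.2; omega) (key (j + 1) i j (by omega)))

/-- the rational closure of a group of unipotent matrices is a Lie algebra -/
theorem isoLie {N : ℕ} {G : Type*} [Group G] (ρ : G →* Matrix (Fin N) (Fin N) ℚ) :
    ∃ L : LieSubalgebra ℚ (Matrix (Fin N) (Fin N) ℚ), ∀ x, x ∈ L ↔ x ∈ isoSet (matFilt N) ρ := by
  obtain ⟨J, hJ⟩ := isoSet_closed (N := N) (ρ := ρ) N 1 (by omega) le_rfl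
  obtain ⟨J₂, hJ₂⟩ := isoSet_closed (N := N) (ρ := ρ) N 2 (by omega) (by omega)
  have hJ1 : ∀ x, x ∈ J ↔ x ∈ isoSet (matFilt N) ρ := by
    intro x
    rw [hJ]
    exact ⟨fun h => h.1, fun h => ⟨h, h.1⟩⟩
  refine ⟨{ J with
    lie_mem' := by
      intro u v hu hv
      rw [LieRing.of_associative_ring_bracket]
      have hu' : u ∈ J := hu
      have hv' : v ∈ J := hv
      rw [hJ1] at hu' hv'
      have h1 := isoSet_bracket le_rfl J₂ hJ₂ hu' hv' hv'.1
      have h2 := ((hJ₂ _).1 h1).1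
      exact (hJ1 _).2 h2 }, fun x => hJ1 x⟩

/-- `exp X` as a unit -/
noncomputable def expU {N : ℕ} (X : Matrix (Fin N) (Fin N) ℚ) (hX : X ∈ (matFilt N).F 1) :
    (Matrix (Fin N) (Fin N) ℚ)ˣ :=
  ⟨IsNilpotent.exp X, IsNilpotent.exp (-X),
    IsNilpotent.exp_mul_exp_neg_self ((matFilt N).nilp hX),
    IsNilpotent.exp_neg_mul_exp_self ((matFilt N).nilp hX)⟩

/-- the group generated by the exponentials of a family of strictly upper triangular matrices -/
noncomputable def GG {N : ℕ} {ι : Type} (X : ι → Matrix (Fin N) (Fin N) ℚ)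
    (hX : ∀ i, X i ∈ (matFilt N).F 1) : Subgroup (Matrix (Fin N) (Fin N) ℚ)ˣ :=
  Subgroup.closure (Set.range fun i => expU (X i) (hX i))

section

variable {N : ℕ} {ι : Type} [Finite ι] {X : ι → Matrix (Fin N) (Fin N) ℚ}
  {hX : ∀ i, X i ∈ (matFilt N).F 1}

theorem GG_fg : Group.FG ↥(GG X hX) := by
  rw [Group.fg_iff_subgroup_fg, Subgroup.fg_iff]
  exact ⟨_, rfl, Set.finite_range _⟩

omit [Finite ι] in
theorem GG_exp (𝓛 : LieSubalgebra ℚ (Matrix (Fin N) (Fin N) ℚ))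
    (hup : ∀ Y ∈ 𝓛, Y ∈ (matFilt N).F 1) (hmem : ∀ i, X i ∈ 𝓛)
    (g : (Matrix (Fin N) (Fin N) ℚ)ˣ) (hg : g ∈ GG X hX) :
    ∃ Y ∈ 𝓛, (g : Matrix (Fin N) (Fin N) ℚ) = IsNilpotent.exp Y := by
  have hT : LieLat (matFilt N) 𝓛.toSubmodule.toAddSubgroup := by
    refine ⟨fun x hx => hup x hx, fun u hu v hv => ?_⟩
    have h1 : u * v - v * u ∈ 𝓛 := by
      rw [← LieRing.of_associative_ring_bracket]
      exact 𝓛.lie_mem hu hv
    exact 𝓛.toSubmodule.smul_mem _ h1
  unfold GG at hg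
  induction hg using Subgroup.closure_induction with
  | mem x hx =>
    obtain ⟨i, rfl⟩ := hx
    exact ⟨X i, hmem i, rfl⟩
  | one => exact ⟨0, 𝓛.zero_mem, by rw [IsNilpotent.exp_zero]; rfl⟩
  | mul x y _ _ hx hy =>
    obtain ⟨u, hu, hxu⟩ := hx
    obtain ⟨v, hv, hyv⟩ := hy
    obtain ⟨z, hz, h⟩ := hT.exp_mul (x := u) (y := v) hu hv
    exact ⟨z, hz, by rw [Units.val_mul, hxu, hyv, h]⟩
  | inv x _ hx =>
    obtain ⟨u, hu, hxu⟩ := hx
    refine ⟨-u, 𝓛.neg_mem hu, ?_⟩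
    apply Units.inv_eq_of_mul_eq_one_right
    rw [hxu]
    exact IsNilpotent.exp_mul_exp_neg_self ((matFilt N).nilp (hup u hu))

/-- The Mal'cev completion of the group is the Lie algebra generated by the family. -/
noncomputable def GGc (𝓛 : LieSubalgebra ℚ (Matrix (Fin N) (Fin N) ℚ))
    (hup : ∀ Y ∈ 𝓛, Y ∈ (matFilt N).F 1) (hmem : ∀ i, X i ∈ 𝓛)
    (hgen : ∀ M : LieSubalgebra ℚ (Matrix (Fin N) (Fin N) ℚ), (∀ i, X i ∈ M) → 𝓛 ≤ M) :
    MalcevCompletion ↥(GG X hX) where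
  N := N
  L := 𝓛
  upper Y hY i j hij := (mem_matFilt.1 (hup Y hY)) i j (by rw [Fin.le_def] at hij; omega)
  ρ := (Units.coeHom _).comp (GG X hX).subtype
  injective := Units.val_injective.comp (Subgroup.subtype_injective _)
  exp_mem g := GG_exp 𝓛 hup hmem g g.2
  dense Y hY := by
    obtain ⟨L, hL⟩ := isoLie ((Units.coeHom (Matrix (Fin N) (Fin N) ℚ)).comp
      (GG X hX).subtype)
    have h1 : 𝓛 ≤ L := by
      refine hgen L fun i => ?_
      rw [hL]
      exact isoSet_mem (hX i) ⟨expU (X i) (hX i), Subgroup.subset_closure ⟨i, rfl⟩⟩ rfl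
    exact ((hL Y).1 (h1 hY)).2

omit [Finite ι] in
theorem GG_nilpotent (𝓛 : LieSubalgebra ℚ (Matrix (Fin N) (Fin N) ℚ))
    (hup : ∀ Y ∈ 𝓛, Y ∈ (matFilt N).F 1) (hmem : ∀ i, X i ∈ 𝓛) :
    Group.IsNilpotent ↥(GG X hX) := by
  refine nilpotent_of_unipotent ((Units.coeHom _).comp (GG X hX).subtype)
    (Units.val_injective.comp (Subgroup.subtype_injective _)) fun g => ?_
  obtain ⟨Y, hY, h⟩ := GG_exp 𝓛 hup hmem g g.2
  change (g : (Matrix (Fin N) (Fin N) ℚ)ˣ).val - 1 ∈ _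
  rw [h]
  exact (matFilt N).exp_sub_one_mem (hup Y hY)

end

end Pool.Agent.Q108.NRF
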