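import Pool.Agent.Q108.NRF.Ex

/-!
# Two Lie algebras of dimension five with isomorphic associated graded Lie algebras
-/

set_option autoImplicit false

namespace Pool.Agent.Q108.NRF

open Pool.Agent.TH91.RF Pool.Agent.Q26.RF

/-- The bracket of `[x₀, x₁] = x₂`, `[x₀, x₂] = x₃`, `[x₁, x₄] = ε x₃`. -/
def br {R : Type*} [CommRing R] (ε : R) (v w : Fin 5 → R) : Fin 5 → R :=
  ![0, 0, v 0 * w 1 - v 1 * w 0, v 0 * w 2 - v 2 * w 0 + ε * (v 1 * w 4 - v 4 * w 1), 0]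

/-- the lower central series in coordinates -/
def Wm : ℕ → Submodule ℚ (Fin 5 → ℚ)
  | 0 => ⊤
  | 1 =>
    { carrier := {v | v 0 = 0 ∧ v 1 = 0 ∧ v 4 = 0}
      add_mem' := by
        rintro a b ⟨h0, h1, h4⟩ ⟨k0, k1, k4⟩
        exact ⟨by simp [h0, k0], by simp [h1, k1], by simp [h4, k4]⟩
      zero_mem' := ⟨rfl, rfl, rfl⟩
      smul_mem' := by
        rintro c a ⟨h0, h1, h4⟩
        exact ⟨by simp [h0], by simp [h1], by simp [h4]⟩ }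
  | 2 =>
    { carrier := {v | v 0 = 0 ∧ v 1 = 0 ∧ v 2 = 0 ∧ v 4 = 0}
      add_mem' := by
        rintro a b ⟨h0, h1, h2, h4⟩ ⟨k0, k1, k2, k4⟩
        exact ⟨by simp [h0, k0], by simp [h1, k1], by simp [h2, k2], by simp [h4, k4]⟩
      zero_mem' := ⟨rfl, rfl, rfl, rfl⟩
      smul_mem' := by
        rintro c a ⟨h0, h1, h2, h4⟩
        exact ⟨by simp [h0], by simp [h1], by simp [h2], by simp [h4]⟩ }
  | _ + 3 => ⊥

theorem mem_W1 {v : Fin 5 → ℚ} : v ∈ Wm 1 ↔ v 0 = 0 ∧ v 1 = 0 ∧ v 4 = 0 := Iff.rfl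

theorem mem_W2 {v : Fin 5 → ℚ} : v ∈ Wm 2 ↔ v 0 = 0 ∧ v 1 = 0 ∧ v 2 = 0 ∧ v 4 = 0 := Iff.rfl

theorem mem_W3 {k : ℕ} {v : Fin 5 → ℚ} : v ∈ Wm (k + 3) ↔ v = 0 := Iff.rfl

theorem br_mem (ε : ℚ) (i : ℕ) (u v : Fin 5 → ℚ) (hv : v ∈ Wm i) : br ε u v ∈ Wm (i + 1) := by
  match i with
  | 0 => exact mem_W1.2 ⟨rfl, rfl, rfl⟩
  | 1 =>
    rw [mem_W1] at hv
    refine mem_W2.2 ⟨rfl, rfl, ?_, rfl⟩
    simp [br, hv.1, hv.2.1]
  | 2 =>
    rw [mem_W2] at hv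
    refine mem_W3.2 ?_
    ext m
    fin_cases m <;> simp [br, hv.1, hv.2.1, hv.2.2.1, hv.2.2.2]
  | k + 3 =>
    rw [mem_W3] at hv
    have h : br ε u v = 0 := by
      rw [hv]
      ext m
      fin_cases m <;> simp [br]
    rw [h]
    exact Submodule.zero_mem _

theorem W_le_one (i : ℕ) {w : Fin 5 → ℚ} (hw : w ∈ Wm (i + 1)) : w 0 = 0 ∧ w 1 = 0 ∧ w 4 = 0 := by
  match i with
  | 0 => exact hw
  | 1 => exact ⟨hw.1, hw.2.1, hw.2.2.2⟩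
  | k + 2 =>
    have : w = 0 := hw
    rw [this]
    exact ⟨rfl, rfl, rfl⟩

theorem exists_br (ε : ℚ) (i : ℕ) (w : Fin 5 → ℚ) (hw : w ∈ Wm (i + 1)) :
    ∃ v ∈ Wm i, br ε (Pi.single 0 1) v = w := by
  refine ⟨![0, w 2, w 3, 0, 0], ?_, ?_⟩
  · match i with
    | 0 => exact Submodule.mem_top
    | 1 =>
      rw [mem_W2] at hw
      refine mem_W1.2 ⟨rfl, ?_, rfl⟩
      simpa using hw.2.2.1
    | 2 =>
      rw [mem_W3 (k := 0)] at hw
      refine mem_W2.2 ⟨rfl, ?_, ?_, rfl⟩ <;> simp [hw]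
    | k + 3 =>
      have hw' : w = 0 := hw
      refine mem_W3.2 ?_
      ext m
      fin_cases m <;> simp [hw']
  · obtain ⟨h0, h1, h4⟩ := W_le_one i hw
    ext m
    fin_cases m <;> simp [br, h0, h1, h4]

theorem br_diff (i j : ℕ) (u v : Fin 5 → ℚ) (hu : u ∈ Wm i) (hv : v ∈ Wm j) :
    br 1 u v - br 0 u v ∈ Wm (i + j + 2) := by
  have h : br (1 : ℚ) u v - br 0 u v = ![0, 0, 0, u 1 * v 4 - u 4 * v 1, 0] := by
    ext m
    fin_cases m <;> simp [br]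
  rw [h]
  rcases i with _ | i
  · rcases j with _ | j
    · exact mem_W2.2 ⟨rfl, rfl, rfl, rfl⟩
    · obtain ⟨h0, h1, h4⟩ := W_le_one j hv
      have : (![0, 0, 0, u 1 * v 4 - u 4 * v 1, 0] : Fin 5 → ℚ) = 0 := by
        ext m
        fin_cases m <;> simp [h1, h4]
      rw [this]
      exact Submodule.zero_mem _
  · obtain ⟨h0, h1, h4⟩ := W_le_one i hu
    have : (![0, 0, 0, u 1 * v 4 - u 4 * v 1, 0] : Fin 5 → ℚ) = 0 := by
      ext m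
      fin_cases m <;> simp [h1, h4]
    rw [this]
    exact Submodule.zero_mem _

section lcs

variable {L : Type*} [LieRing L] [LieAlgebra ℚ L] (ε : ℚ) (E : (Fin 5 → ℚ) ≃ₗ[ℚ] L)
  (hE : ∀ u v, ⁅E u, E v⁆ = E (br ε u v))

include hE

theorem lcs_eq (i : ℕ) : (LieModule.lowerCentralSeries ℚ L L i).toSubmodule =
    (Wm i).map E.toLinearMap := by
  induction i with
  | zero =>
    rw [LieModule.lowerCentralSeries_zero]
    change ⊤ = Submodule.map _ ⊤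
    rw [Submodule.map_top]
    exact (LinearMap.range_eq_top.2 E.surjective).symm
  | succ i ih =>
    rw [LieModule.lowerCentralSeries_succ, LieSubmodule.lieIdeal_oper_eq_linear_span']
    apply le_antisymm
    · rw [Submodule.span_le]
      rintro _ ⟨x, _, n, hn, rfl⟩
      have hn' : n ∈ (LieModule.lowerCentralSeries ℚ L L i).toSubmodule := hn
      rw [ih] at hn'
      obtain ⟨v, hv, rfl⟩ := hn'
      obtain ⟨u, rfl⟩ := E.surjective x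
      refine ⟨br ε u v, br_mem ε i u v hv, ?_⟩
      exact (hE u v).symm
    · rintro _ ⟨w, hw, rfl⟩
      obtain ⟨v, hv, rfl⟩ := exists_br ε i w hw
      apply Submodule.subset_span
      refine ⟨E (Pi.single 0 1), LieSubmodule.mem_top _, E v, ?_, hE _ _⟩
      have : E v ∈ (LieModule.lowerCentralSeries ℚ L L i).toSubmodule := by
        rw [ih]
        exact ⟨v, hv, rfl⟩
      exact this

end lcs

/-- The two algebras have isomorphic associated graded Lie algebras. -/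
theorem graded {L₁ L₂ : Type*} [LieRing L₁] [LieAlgebra ℚ L₁] [LieRing L₂] [LieAlgebra ℚ L₂]
    (E₁ : (Fin 5 → ℚ) ≃ₗ[ℚ] L₁) (h₁ : ∀ u v, ⁅E₁ u, E₁ v⁆ = E₁ (br 1 u v))
    (E₂ : (Fin 5 → ℚ) ≃ₗ[ℚ] L₂) (h₂ : ∀ u v, ⁅E₂ u, E₂ v⁆ = E₂ (br 0 u v)) :
    ∃ φ : L₁ ≃ₗ[ℚ] L₂,
      (∀ i : ℕ, (LieModule.lowerCentralSeries ℚ L₁ L₁ i).toSubmodule.map φ.toLinearMap =
        (LieModule.lowerCentralSeries ℚ L₂ L₂ i).toSubmodule) ∧
      ∀ i j : ℕ, ∀ x ∈ LieModule.lowerCentralSeries ℚ L₁ L₁ i,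
        ∀ y ∈ LieModule.lowerCentralSeries ℚ L₁ L₁ j,
          φ ⁅x, y⁆ - ⁅φ x, φ y⁆ ∈ LieModule.lowerCentralSeries ℚ L₂ L₂ (i + j + 2) := by
  have hφ : ∀ u, (E₁.symm.trans E₂) (E₁ u) = E₂ u := fun u => by
    rw [LinearEquiv.trans_apply, LinearEquiv.symm_apply_apply]
  refine ⟨E₁.symm.trans E₂, fun i => ?_, fun i j x hx y hy => ?_⟩
  · rw [lcs_eq 1 E₁ h₁, lcs_eq 0 E₂ h₂, ← Submodule.map_comp]
    congr 1
    apply LinearMap.ext
    intro u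
    exact hφ u
  · have hx' : x ∈ (LieModule.lowerCentralSeries ℚ L₁ L₁ i).toSubmodule := hx
    have hy' : y ∈ (LieModule.lowerCentralSeries ℚ L₁ L₁ j).toSubmodule := hy
    rw [lcs_eq 1 E₁ h₁] at hx' hy'
    obtain ⟨u, hu, rfl⟩ := hx'
    obtain ⟨v, hv, rfl⟩ := hy'
    have h3 : (E₁.symm.trans E₂) ⁅E₁ u, E₁ v⁆ -
        ⁅(E₁.symm.trans E₂) (E₁ u), (E₁.symm.trans E₂) (E₁ v)⁆ =
        E₂ (br 1 u v - br 0 u v) := by
      rw [h₁, hφ, hφ, hφ, h₂, map_sub]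
    have h4 : (E₁.symm.trans E₂) ⁅E₁ u, E₁ v⁆ -
        ⁅(E₁.symm.trans E₂) (E₁ u), (E₁.symm.trans E₂) (E₁ v)⁆ ∈
        (LieModule.lowerCentralSeries ℚ L₂ L₂ (i + j + 2)).toSubmodule := by
      rw [h3, lcs_eq 0 E₂ h₂]
      exact ⟨_, br_diff i j u v hu hv, rfl⟩
    exact h4

end Pool.Agent.Q108.NRF
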