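import Pool.Agent.Q108.NRF.Five

/-!
# The exponents of the two algebras are different
-/

set_option autoImplicit false

namespace Pool.Agent.Q108.NRF

open Pool.Agent.TH91.RF Pool.Agent.Q26.RF Finset Matrix

/-- the structure constants -/
def TT (ε : ℤ) (l : Fin 5) : Matrix (Fin 5) (Fin 5) ℤ :=
  Matrix.of fun j i => br ε (Pi.single l 1) (Pi.single i 1) j

theorem TT_mulVec {F : Type*} [CommRing F] (ε : ℤ) (l : Fin 5) (x : Fin 5 → F) :
    (TT ε l).map (Int.castRingHom F) *ᵥ x = br (ε : F) (Pi.single l 1) x := by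
  ext j
  fin_cases l <;> fin_cases j <;>
    simp [TT, br, Matrix.mulVec, dotProduct, Fin.sum_univ_succ, Pi.single_apply]

theorem br_single (ε : ℤ) (l i : Fin 5) :
    br (ε : ℚ) (Pi.single l 1) (Pi.single i 1) = ∑ j, (TT ε l j i) • (Pi.single j 1 : Fin 5 → ℚ) := by
  ext m
  rw [Finset.sum_apply]
  simp only [Pi.smul_apply, Pi.single_apply, smul_ite, smul_zero, Finset.sum_ite_eq,
    Finset.mem_univ, if_true]
  fin_cases l <;> fin_cases i <;> fin_cases m <;> simp [TT, br, Pi.single_apply]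

section

variable {F : Type*} [Field F] {e : ℕ} {P : Matrix (Fin e) (Fin 5) F}

theorem quo_ker {ε : ℤ} (hP : Quo (TT ε) F e P) {v : Fin 5 → F} (hv : P *ᵥ v = 0) (l : Fin 5) :
    P *ᵥ br (ε : F) (Pi.single l 1) v = 0 := by
  obtain ⟨A, hA⟩ := hP
  rw [← TT_mulVec, mulVec_mulVec, hA l, ← mulVec_mulVec, hv, mulVec_zero]

theorem single3 (P : Matrix (Fin e) (Fin 5) F) {a : F} {w : Fin 5 → F}
    (hw : w = Pi.single 3 a) (h0 : P *ᵥ w = 0) (h3 : P *ᵥ Pi.single 3 1 ≠ 0) : a = 0 := by
  by_contra ha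
  apply h3
  have h1 : (Pi.single 3 1 : Fin 5 → F) = a⁻¹ • w := by
    rw [hw, ← Pi.single_smul, smul_eq_mul, inv_mul_cancel₀ ha]
  rw [h1, mulVec_smul, h0, smul_zero]

theorem ker_step {ε : ℤ} (hP : Quo (TT ε) F e P) (h3 : P *ᵥ Pi.single 3 1 ≠ 0) {v : Fin 5 → F}
    (hv : P *ᵥ v = 0) : v 0 = 0 ∧ v 1 = 0 ∧ v 2 = 0 ∧ (ε : F) * v 4 = 0 ∧
      (v 4 = 0 → v = 0) := by
  have k1 : v 1 = 0 := by
    refine single3 P ?_ (quo_ker hP (quo_ker hP hv 0) 0) h3
    ext j
    fin_cases j <;> simp [br, Pi.single_apply]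
  have k0 : - v 0 = 0 := by
    refine single3 P ?_ (quo_ker hP hv 2) h3
    ext j
    fin_cases j <;> simp [br, Pi.single_apply]
  have k0' : v 0 = 0 := by simpa using k0
  have k4 : (ε : F) * v 4 = 0 := by
    refine single3 P ?_ (quo_ker hP hv 1) h3
    ext j
    fin_cases j <;> simp [br, Pi.single_apply, k0']
  have k2 : v 2 = 0 := by
    refine single3 P ?_ (quo_ker hP hv 0) h3
    ext j
    fin_cases j <;> simp [br, Pi.single_apply, k1]
  refine ⟨k0', k1, k2, k4, fun h4 => ?_⟩
  have hv3 : v = Pi.single 3 (v 3) := by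
    ext j
    fin_cases j <;> simp [Pi.single_apply, k0', k1, k2, h4]
  have k3 : v 3 = 0 := single3 P hv3 hv h3
  rw [hv3, k3, Pi.single_zero]

/-- for `ε = 1` the exponent is at least five -/
theorem not_rfull_one (he : e ≤ 4) : ¬ RFull (TT 1) univ F e := by
  intro h
  have h1 := h (Pi.single 3 1) ?_ 3 (mem_univ 3)
  · rw [Pi.single_eq_same] at h1
    exact one_ne_zero h1
  · intro P hP
    refine ⟨0, fun _ _ => rfl, ?_⟩
    rw [mulVec_zero]
    by_contra h3
    have hinj : Function.Injective P.mulVecLin := by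
      rw [injective_iff_map_eq_zero]
      intro v hv
      obtain ⟨_, _, _, k4, k⟩ := ker_step hP h3 (v := v) hv
      refine k ?_
      simpa using k4
    have h2 := LinearMap.finrank_le_finrank_of_injective hinj
    rw [Module.finrank_fin_fun, Module.finrank_fin_fun] at h2
    omega

/-- for `ε = 0` the exponent is at least four -/
theorem not_rfull_zero (he : e ≤ 3) : ¬ RFull (TT 0) univ F e := by
  intro h
  have h1 := h (Pi.single 3 1) ?_ 3 (mem_univ 3)
  · rw [Pi.single_eq_same] at h1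
    exact one_ne_zero h1
  · intro P hP
    refine ⟨0, fun _ _ => rfl, ?_⟩
    rw [mulVec_zero]
    by_contra h3
    let ι : (Fin 4 → F) →ₗ[F] (Fin 5 → F) :=
      { toFun := fun w => ![w 0, w 1, w 2, w 3, 0]
        map_add' := by
          intro a b
          ext j
          fin_cases j <;> simp
        map_smul' := by
          intro a b
          ext j
          fin_cases j <;> simp }
    have hinj : Function.Injective (P.mulVecLin ∘ₗ ι) := by
      rw [injective_iff_map_eq_zero]
      intro w hw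
      have hw' : P *ᵥ (![w 0, w 1, w 2, w 3, 0] : Fin 5 → F) = 0 := hw
      obtain ⟨_, _, _, _, k⟩ := ker_step hP h3 hw'
      have k5 := k rfl
      ext j
      fin_cases j
      · exact congrFun k5 0
      · exact congrFun k5 1
      · exact congrFun k5 2
      · exact congrFun k5 3
    have h2 := LinearMap.finrank_le_finrank_of_injective hinj
    rw [Module.finrank_fin_fun, Module.finrank_fin_fun] at h2
    omega

/-- the first four coordinates -/
def P4 (F : Type*) [Field F] : Matrix (Fin 4) (Fin 5) F :=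
  !![1, 0, 0, 0, 0; 0, 1, 0, 0, 0; 0, 0, 1, 0, 0; 0, 0, 0, 1, 0]

/-- the last coordinate -/
def P1 (F : Type*) [Field F] : Matrix (Fin 4) (Fin 5) F :=
  !![0, 0, 0, 0, 1; 0, 0, 0, 0, 0; 0, 0, 0, 0, 0; 0, 0, 0, 0, 0]

theorem quo_P4 : Quo (TT 0) F 4 (P4 F) := by
  refine ⟨fun l => Matrix.of fun i k => ((TT 0 l i.castSucc k.castSucc : ℤ) : F), fun l => ?_⟩
  ext i j
  fin_cases l <;> fin_cases i <;> fin_cases j <;>
    simp [P4, TT, br, Matrix.mul_apply, Fin.sum_univ_four, Fin.sum_univ_five, Pi.single_apply]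

theorem quo_P1 : Quo (TT 0) F 4 (P1 F) := by
  refine ⟨fun l => 0, fun l => ?_⟩
  ext i j
  fin_cases l <;> fin_cases i <;> fin_cases j <;>
    simp [P1, TT, br, Matrix.mul_apply, Fin.sum_univ_succ, Pi.single_apply]

theorem rfull_zero : RFull (TT 0) univ F 4 := by
  intro x hx
  obtain ⟨y, hy, h4⟩ := hx _ quo_P4
  obtain ⟨z, hz, h1⟩ := hx _ quo_P1
  have hy0 : y = 0 := funext fun i => hy i (mem_univ i)
  have hz0 : z = 0 := funext fun i => hz i (mem_univ i)
  rw [hy0, mulVec_zero] at h4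
  rw [hz0, mulVec_zero] at h1
  intro i _
  fin_cases i
  · have := congrFun h4 0
    simpa [P4, Matrix.mulVec, dotProduct, Fin.sum_univ_succ] using this
  · have := congrFun h4 1
    simpa [P4, Matrix.mulVec, dotProduct, Fin.sum_univ_succ] using this
  · have := congrFun h4 2
    simpa [P4, Matrix.mulVec, dotProduct, Fin.sum_univ_succ] using this
  · have := congrFun h4 3
    simpa [P4, Matrix.mulVec, dotProduct, Fin.sum_univ_succ] using this
  · have := congrFun h1 0
    simpa [P1, Matrix.mulVec, dotProduct, Fin.sum_univ_succ] using this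

theorem rfull_five (ε : ℤ) : RFull (TT ε) univ F 5 := by
  intro x hx
  obtain ⟨y, hy, h1⟩ := hx 1 ⟨fun l => (TT ε l).map (Int.castRingHom F), fun l => by
    rw [one_mul, mul_one]⟩
  rw [one_mulVec, one_mulVec] at h1
  rw [h1]
  exact hy

end

end Pool.Agent.Q108.NRF
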