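import Pool.Agent.Q108.NRF.Main

/-!
# The exponent
-/

set_option autoImplicit false

namespace Pool.Agent.Q108.NRF

open Pool.Agent.TH91.RF Pool.Agent.Q26.RF

/-- The set of all `e` such that the ideals of codimension at most `e` of the complex Lie algebra
`𝔤` meet in zero. -/
def sepDims (𝔤 : Type*) [LieRing 𝔤] [LieAlgebra ℂ 𝔤] : Set ℕ :=
  {e : ℕ | ∀ x : 𝔤, (∀ I : LieIdeal ℂ 𝔤, Module.finrank ℂ (𝔤 ⧸ I) ≤ e → x ∈ I) → x = 0}

/-- quotients of dimension at most `e` separate points iff the ideals of codimension at most `e`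
meet in zero -/
theorem lf_iff (𝔤 : Type*) [LieRing 𝔤] [LieAlgebra ℂ 𝔤] [Module.Finite ℂ 𝔤] (e : ℕ) :
    LF 𝔤 e ↔ e ∈ sepDims 𝔤 := by
  change LF 𝔤 e ↔ ∀ x : 𝔤, (∀ I : LieIdeal ℂ 𝔤, Module.finrank ℂ (𝔤 ⧸ I) ≤ e → x ∈ I) → x = 0
  constructor
  · intro h x hx
    refine h x fun f hf => ?_
    let I : LieIdeal ℂ 𝔤 := 
      { LinearMap.ker f with
        lie_mem := fun {y z} hz => hf y z hz }
    have hI : (I : Submodule ℂ 𝔤) = LinearMap.ker f := rfl
    have h1 : Module.finrank ℂ (𝔤 ⧸ I) ≤ e := by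
      have h2 : Module.finrank ℂ (𝔤 ⧸ LinearMap.ker f) = Module.finrank ℂ (LinearMap.range f) :=
        (LinearMap.quotKerEquivRange f).finrank_eq
      have h3 : Module.finrank ℂ (LinearMap.range f) ≤ Module.finrank ℂ (Fin e → ℂ) :=
        Submodule.finrank_le _
      rw [Module.finrank_fin_fun] at h3
      have h4 : Module.finrank ℂ (𝔤 ⧸ I) = Module.finrank ℂ (𝔤 ⧸ LinearMap.ker f) := rfl
      omega
    exact hx I h1
  · intro h x hx
    refine h x fun I hI => ?_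
    obtain ⟨ι, hι⟩ : ∃ ι : (𝔤 ⧸ (I : Submodule ℂ 𝔤)) →ₗ[ℂ] (Fin e → ℂ), Function.Injective ι := by
      apply finrank_le_iff_exists_linearMap.1
      rw [Module.finrank_fin_fun]
      exact hI
    have h1 := hx (ι ∘ₗ (I : Submodule ℂ 𝔤).mkQ) (by
      intro y z hz
      have hz' : ι ((I : Submodule ℂ 𝔤).mkQ z) = ι 0 := by rw [map_zero]; exact hz
      have h2 : z ∈ I := by
        have := hι hz'
        exact (Submodule.Quotient.mk_eq_zero _).1 this
      have h3 : ⁅y, z⁆ ∈ I := lie_mem_right ℂ 𝔤 I y z h2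
      have h4 : (I : Submodule ℂ 𝔤).mkQ ⁅y, z⁆ = 0 := (Submodule.Quotient.mk_eq_zero _).2 h3
      rw [LinearMap.comp_apply, h4, map_zero])
    have h2 : ι ((I : Submodule ℂ 𝔤).mkQ x) = ι 0 := by rw [map_zero]; exact h1
    exact (Submodule.Quotient.mk_eq_zero _).1 (hι h2)

theorem finite_CLie {G : Type*} [Group G] (c : MalcevCompletion G) : Module.Finite ℂ c.CLie := by
  have := finite_QLie c
  have h : Module.Finite ℂ (TensorProduct ℚ ℂ c.QLie) := inferInstance
  exact h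

theorem log_bounds (n : ℕ) (hn : 1 ≤ n) : Real.log n + 1 ≤ (Nat.log 2 (4 * n) : ℝ) ∧
    (Nat.log 2 n : ℝ) ≤ 2 * (Real.log n + 1) := by
  have hn0 : (0 : ℝ) < n := by exact_mod_cast hn
  have hlog2 : (1 / 2 : ℝ) < Real.log 2 := by
    have := Real.log_two_gt_d9
    linarith
  have hlog2' : Real.log 2 < 1 := by
    have := Real.log_two_lt_d9
    linarith
  constructor
  · have h1 : Nat.log 2 (4 * n) = Nat.log 2 n + 2 := by
      have h2 : 4 * n = n * 2 * 2 := by ring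
      rw [h2, Nat.log_mul_base one_lt_two (by omega), Nat.log_mul_base one_lt_two (by omega)]
    rw [h1]
    have h3 : n < 2 ^ (Nat.log 2 n + 1) := Nat.lt_pow_succ_log_self one_lt_two n
    have h4 : Real.log n ≤ Real.log (2 ^ (Nat.log 2 n + 1) : ℝ) :=
      Real.log_le_log hn0 (by exact_mod_cast h3.le)
    rw [Real.log_pow] at h4
    push_cast at h4 ⊢
    have h5 : ((Nat.log 2 n : ℝ) + 1) * Real.log 2 ≤ ((Nat.log 2 n : ℝ) + 1) * 1 :=
      mul_le_mul_of_nonneg_left hlog2'.le (by positivity)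
    linarith
  · have h3 : 2 ^ (Nat.log 2 n) ≤ n := Nat.pow_log_le_self 2 (by omega)
    have h4 : Real.log (2 ^ (Nat.log 2 n) : ℝ) ≤ Real.log n :=
      Real.log_le_log (by positivity) (by exact_mod_cast h3)
    rw [Real.log_pow] at h4
    have h5 : (Nat.log 2 n : ℝ) * (1 / 2) ≤ (Nat.log 2 n : ℝ) * Real.log 2 :=
      mul_le_mul_of_nonneg_left hlog2.le (by positivity)
    linarith

theorem growth_of_LF {Q : Type*} [Group Q] [Group.IsNilpotent Q] {R : Set Q}
    (hR : R.Finite) (hgR : Subgroup.closure R = ⊤) (c : MalcevCompletion Q) (e : ℕ)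
    (hepos : 1 ≤ e) (he1 : LF c.CLie e) (hmin1 : ∀ e' < e, ¬ LF c.CLie e') :
    GrowthEquiv (rfGrowth R) (fun n => Nat.log 2 n ^ e) := by
  obtain ⟨_, h1⟩ := rf_main c hR hgR
  obtain ⟨C, hC⟩ := h1 e he1 hmin1
  constructor
  · refine ⟨C + 4, by omega, fun n => ?_⟩
    rcases Nat.eq_zero_or_pos n with rfl | hn
    · rw [rfGrowth_zero hgR]
      exact Nat.zero_le _
    have h2 := (hC n hn).1
    have h3 := (log_bounds n hn).1
    have h0 : 0 ≤ Real.log n := Real.log_nonneg (by exact_mod_cast hn)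
    have h4 : (rfGrowth R n : ℝ) ≤ ((C * Nat.log 2 (4 * n) ^ e : ℕ) : ℝ) := by
      refine h2.trans ?_
      push_cast
      exact mul_le_mul_of_nonneg_left (pow_le_pow_left₀ (by linarith) h3 e) (Nat.cast_nonneg _)
    have h5 : rfGrowth R n ≤ C * Nat.log 2 (4 * n) ^ e := by exact_mod_cast h4
    refine h5.trans (Nat.mul_le_mul (by omega) (Nat.pow_le_pow_left ?_ e))
    exact Nat.log_mono_right (Nat.mul_le_mul_right n (by omega))
  · refine ⟨2 ^ e * C + 1, by omega, fun n => ?_⟩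
    rcases Nat.eq_zero_or_pos n with rfl | hn
    · have : Nat.log 2 0 ^ e = 0 := by
        rw [Nat.log_zero_right]
        exact zero_pow (by omega)
      change Nat.log 2 0 ^ e ≤ _
      rw [this]
      exact Nat.zero_le _
    have h2 := (hC n hn).2.resolve_right (by omega)
    have h3 := (log_bounds n hn).2
    have h4 : ((Nat.log 2 n ^ e : ℕ) : ℝ) ≤ ((2 ^ e * C * rfGrowth R n : ℕ) : ℝ) := by
      push_cast
      calc (Nat.log 2 n : ℝ) ^ e ≤ (2 * (Real.log n + 1)) ^ e :=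
            pow_le_pow_left₀ (Nat.cast_nonneg _) h3 e
        _ = 2 ^ e * (Real.log n + 1) ^ e := mul_pow _ _ _
        _ ≤ 2 ^ e * (C * rfGrowth R n) := mul_le_mul_of_nonneg_left h2 (by positivity)
        _ = _ := by ring
    have h5 : Nat.log 2 n ^ e ≤ 2 ^ e * C * rfGrowth R n := by exact_mod_cast h4
    refine h5.trans (Nat.mul_le_mul (by omega) ?_)
    exact rf_mono hR hgR (Nat.le_mul_of_pos_left n (by omega))

theorem formula_tf {Q : Type*} [Group Q] [Group.IsNilpotent Q] [Nontrivial Q] {R : Set Q}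
    (hR : R.Finite) (hgR : Subgroup.closure R = ⊤) (c : MalcevCompletion Q) :
    ∃ e : ℕ, IsLeast (sepDims c.CLie) e ∧ 1 ≤ e ∧ e ≤ Module.finrank ℂ c.CLie ∧
      GrowthEquiv (rfGrowth R) (fun n => Nat.log 2 n ^ e) := by
  classical
  have hfin := finite_CLie c
  obtain ⟨hex, h1⟩ := rf_main c hR hgR
  set e := Nat.find hex with he
  have he1 : LF c.CLie e := Nat.find_spec hex
  have hmin1 : ∀ e' < e, ¬ LF c.CLie e' := fun e' h => Nat.find_min hex h
  have hlf := fun e => lf_iff c.CLie e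
  have hres := exists_avoid' Q (fg_of hR hgR)
  have hepos : 1 ≤ e := by
    by_contra hcon
    have he0 : e = 0 := by omega
    rw [he0] at he1
    have h2 := growth_of_LF0 c R he1 1
    have h3 := rf_pos hR hgR hres (le_refl 1)
    omega
  refine ⟨e, ⟨(hlf e).1 he1, fun e' he' => ?_⟩, hepos, ?_,
    growth_of_LF hR hgR c e hepos he1 hmin1⟩
  · by_contra hcon
    exact hmin1 e' (by omega) ((hlf e').2 he')
  · by_contra hcon
    refine hmin1 (Module.finrank ℂ c.CLie) (by omega) ((hlf _).2 fun x hx => ?_)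
    have h2 := hx ⊥ (by
      have h3 : Module.finrank ℂ (c.CLie ⧸ (⊥ : LieIdeal ℂ c.CLie)) =
          Module.finrank ℂ (c.CLie ⧸ (⊥ : Submodule ℂ c.CLie)) := rfl
      rw [h3]
      exact Submodule.finrank_quotient_le _)
    simpa using h2

/-- different powers of the logarithm are not equivalent -/
theorem le_of_dominated {a b : ℕ}
    (h : Dominated (fun n => Nat.log 2 n ^ a) (fun n => Nat.log 2 n ^ b)) : a ≤ b := by
  obtain ⟨C, hC, h⟩ := h
  by_contra hab
  push Not at hab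
  set K := Nat.log 2 C + 1 with hK
  set k := C * 2 ^ b + K + 1 with hk
  have h1 := h (2 ^ k)
  simp only at h1
  rw [Nat.log_pow one_lt_two] at h1
  have h2 : Nat.log 2 (C * 2 ^ k) ≤ 2 * k := by
    have h3 : C * 2 ^ k < 2 ^ (2 * k) := by
      have h4 : C < 2 ^ K := Nat.lt_pow_succ_log_self one_lt_two C
      calc C * 2 ^ k < 2 ^ K * 2 ^ k := Nat.mul_lt_mul_of_pos_right h4 (by positivity)
        _ ≤ 2 ^ k * 2 ^ k := Nat.mul_le_mul_right _ (Nat.pow_le_pow_right (by omega) (by omega))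
        _ = 2 ^ (2 * k) := by rw [← pow_add]; congr 1; omega
    exact (Nat.log_lt_of_lt_pow (by positivity) h3).le
  have h3 : k ^ a ≤ C * (2 * k) ^ b := h1.trans (Nat.mul_le_mul_left _ (Nat.pow_le_pow_left h2 b))
  have hk0 : 0 < k := by omega
  have h4 : k ^ (b + 1) ≤ k ^ a := Nat.pow_le_pow_right hk0 (by omega)
  have h5 : k * k ^ b ≤ (C * 2 ^ b) * k ^ b := by
    calc k * k ^ b = k ^ (b + 1) := by ring
      _ ≤ C * (2 * k) ^ b := h4.trans h3
      _ = (C * 2 ^ b) * k ^ b := by rw [mul_pow]; ring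
  have h6 : k ≤ C * 2 ^ b := Nat.le_of_mul_le_mul_right h5 (Nat.pow_pos hk0)
  omega

theorem eq_of_growthEquiv {a b : ℕ}
    (h : GrowthEquiv (fun n => Nat.log 2 n ^ a) (fun n => Nat.log 2 n ^ b)) : a = b :=
  le_antisymm (le_of_dominated h.1) (le_of_dominated h.2)

/-- **The growth of an infinite finitely generated nilpotent group.** -/
theorem formula {G : Type*} [Group G] [Group.IsNilpotent G] [Infinite G] {S : Set G}
    (hS : S.Finite) (hgen : Subgroup.closure S = ⊤) (T : Subgroup G) [T.Normal] (hT : Finite T)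
    (c : MalcevCompletion (G ⧸ T)) :
    ∃ e : ℕ, IsLeast (sepDims c.CLie) e ∧ 1 ≤ e ∧ e ≤ Module.finrank ℂ c.CLie ∧
      GrowthEquiv (rfGrowth S) (fun n => Nat.log 2 n ^ e) := by
  have hnt := nontrivial_quot T hT
  have h1 := equiv_quot hS hgen T hT (tf_of_completion c)
  obtain ⟨e, he1, he2, he3, he4⟩ := formula_tf (hS.image _) (closure_image hgen T) c
  exact ⟨e, he1, he2, he3, GrowthEquiv.trans h1 he4⟩

/-- **The growths are equivalent exactly when the exponents are equal.** -/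
theorem equiv_iff {G₁ G₂ : Type*} [Group G₁] [Group G₂] [Group.IsNilpotent G₁]
    [Group.IsNilpotent G₂] [Infinite G₁] [Infinite G₂] {S₁ : Set G₁} {S₂ : Set G₂}
    (hS₁ : S₁.Finite) (hgen₁ : Subgroup.closure S₁ = ⊤) (hS₂ : S₂.Finite)
    (hgen₂ : Subgroup.closure S₂ = ⊤) (T₁ : Subgroup G₁) (T₂ : Subgroup G₂) [T₁.Normal]
    [T₂.Normal] (hT₁ : Finite T₁) (hT₂ : Finite T₂) (c₁ : MalcevCompletion (G₁ ⧸ T₁))
    (c₂ : MalcevCompletion (G₂ ⧸ T₂)) (e₁ e₂ : ℕ) (he₁ : IsLeast (sepDims c₁.CLie) e₁)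
    (he₂ : IsLeast (sepDims c₂.CLie) e₂) :
    GrowthEquiv (rfGrowth S₁) (rfGrowth S₂) ↔ e₁ = e₂ := by
  obtain ⟨d₁, hd₁, _, _, h₁⟩ := formula hS₁ hgen₁ T₁ hT₁ c₁
  obtain ⟨d₂, hd₂, _, _, h₂⟩ := formula hS₂ hgen₂ T₂ hT₂ c₂
  rw [hd₁.unique he₁] at h₁
  rw [hd₂.unique he₂] at h₂
  constructor
  · intro h
    exact eq_of_growthEquiv (GrowthEquiv.trans (GrowthEquiv.symm h₁) (GrowthEquiv.trans h h₂))
  · rintro rfl
    exact GrowthEquiv.trans h₁ (GrowthEquiv.symm h₂)

end Pool.Agent.Q108.NRF
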