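import Pool.Agent.Helper611.PcGrp
import Pool.Agent.Helper111.EN.Basic

/-!
# Torsion in finitely generated nilpotent groups
-/

set_option autoImplicit false

namespace Pool.Agent.Q108.NRF

open Pool.Agent.Helper611.PcGrp

open scoped commutatorElement

theorem maxC (G : Type*) [Group G] [hG : Group.IsNilpotent G] (hfg : Group.FG G) : MaxC G := by
  intro S
  have h := Helper111.EN.NSc.NS_of_nilpotent_fg (⊤ : Subgroup G) (Group.isNilpotent_top.2 hG)
    hfg.out
  exact h _ le_top

theorem pow_comm_aux {K : Type*} [Group K] (P G c : K) (hc : ∀ g : K, c * g = g * c)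
    (h : P * G = c * G * P) : ∀ n : ℕ, P ^ n * G = c ^ n * G * P ^ n := by
  intro n
  induction n with
  | zero => simp
  | succ n ih =>
    have hcn : ∀ g : K, c ^ n * g = g * c ^ n := by
      intro g
      exact ((show Commute c g from hc g).pow_left n).eq
    calc P ^ (n + 1) * G = P ^ n * (P * G) := by rw [pow_succ]; group
      _ = P ^ n * c * G * P := by rw [h]; group
      _ = c * (P ^ n * G) * P := by rw [← hc (P ^ n)]; group
      _ = c * (c ^ n * G * P ^ n) * P := by rw [ih]
      _ = c ^ (n + 1) * G * P ^ (n + 1) := by rw [pow_succ' c, pow_succ P]; group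

theorem exp_step (Q : Type*) [Group Q] (e : ℕ)
    (h : ∀ q : Q, q ^ e ∈ commutator Q) : ∀ i : ℕ, ∀ x ∈ (⊤ : Subgroup Q).lowerCentralSeries i,
      x ^ e ∈ (⊤ : Subgroup Q).lowerCentralSeries (i + 1) := by
  intro i
  induction i with
  | zero =>
    intro x _
    rw [zero_add, Subgroup.top_lowerCentralSeries_one]
    exact h x
  | succ i ih =>
    have hN : ((⊤ : Subgroup Q).lowerCentralSeries (i + 1 + 1)).Normal := inferInstance
    have hcen : ∀ y ∈ (⊤ : Subgroup Q).lowerCentralSeries (i + 1), ∀ g : Q,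
        (QuotientGroup.mk y : Q ⧸ (⊤ : Subgroup Q).lowerCentralSeries (i + 1 + 1)) *
          QuotientGroup.mk g = QuotientGroup.mk g * QuotientGroup.mk y := by
      intro y hy g
      rw [← QuotientGroup.mk_mul, ← QuotientGroup.mk_mul, QuotientGroup.eq]
      have h1 : ⁅g⁻¹, y⁻¹⁆ ∈ (⊤ : Subgroup Q).lowerCentralSeries (i + 1 + 1) := by
        rw [← commutatorElement_inv]
        apply Subgroup.inv_mem
        rw [Subgroup.lowerCentralSeries_succ]
        exact Subgroup.commutator_mem_commutator (Subgroup.inv_mem _ hy) (Subgroup.mem_top _)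
      have h2 : (y * g)⁻¹ * (g * y) = ⁅g⁻¹, y⁻¹⁆ := by
        rw [commutatorElement_def]
        group
      rw [h2]
      exact h1
    intro x hx
    have hx' := hx
    rw [Subgroup.mem_lowerCentralSeries_succ_iff] at hx'
    induction hx' using Subgroup.closure_induction with
    | mem x hxm =>
      obtain ⟨p, hp, q, _, rfl⟩ := hxm
      have hc : ∀ g : Q ⧸ (⊤ : Subgroup Q).lowerCentralSeries (i + 1 + 1),
          (QuotientGroup.mk ⁅p, q⁆) * g = g * QuotientGroup.mk ⁅p, q⁆ := by
        intro g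
        obtain ⟨g, rfl⟩ := QuotientGroup.mk_surjective g
        exact hcen _ hx g
      have hPG : (QuotientGroup.mk p : Q ⧸ (⊤ : Subgroup Q).lowerCentralSeries (i + 1 + 1)) *
          QuotientGroup.mk q = QuotientGroup.mk ⁅p, q⁆ * QuotientGroup.mk q * QuotientGroup.mk p := by
        rw [← QuotientGroup.mk_mul, ← QuotientGroup.mk_mul, ← QuotientGroup.mk_mul]
        congr 1
        rw [commutatorElement_def]
        group
      have h3 := pow_comm_aux _ _ _ hc hPG e
      have h4 := ih p hp
      have h5 := hcen _ h4 q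
      rw [QuotientGroup.mk_pow] at h5
      rw [h5] at h3
      have h6 : (QuotientGroup.mk ⁅p, q⁆ : Q ⧸ (⊤ : Subgroup Q).lowerCentralSeries (i + 1 + 1)) ^ e
          = 1 := by
        have h7 := mul_right_cancel h3
        exact (right_eq_mul.mp h7)
      rw [← QuotientGroup.mk_pow, QuotientGroup.eq_one_iff] at h6
      exact h6
    | one => rw [one_pow]; exact Subgroup.one_mem _
    | mul x y hx1 hy1 hx2 hy2 =>
      have hx3 : x ∈ (⊤ : Subgroup Q).lowerCentralSeries (i + 1) := by
        rw [Subgroup.mem_lowerCentralSeries_succ_iff]; exact hx1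
      have hy3 : y ∈ (⊤ : Subgroup Q).lowerCentralSeries (i + 1) := by
        rw [Subgroup.mem_lowerCentralSeries_succ_iff]; exact hy1
      have hx4 := hx2 hx3
      have hy4 := hy2 hy3
      rw [← QuotientGroup.eq_one_iff, QuotientGroup.mk_pow] at hx4 hy4 ⊢
      have hcm : Commute (QuotientGroup.mk x : Q ⧸ (⊤ : Subgroup Q).lowerCentralSeries (i + 1 + 1))
          (QuotientGroup.mk y) := hcen x hx3 y
      rw [QuotientGroup.mk_mul, hcm.mul_pow, hx4, hy4, one_mul]
    | inv x hx1 hx2 =>
      have hx3 : x ∈ (⊤ : Subgroup Q).lowerCentralSeries (i + 1) := by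
        rw [Subgroup.mem_lowerCentralSeries_succ_iff]; exact hx1
      have hx4 := hx2 hx3
      rw [inv_pow]
      exact Subgroup.inv_mem _ hx4

theorem exp_nilp (Q : Type*) [Group Q] (c : ℕ) (hc : (⊤ : Subgroup Q).lowerCentralSeries c = ⊥)
    (e : ℕ) (h : ∀ q : Q, q ^ e ∈ commutator Q) : ∀ q : Q, q ^ (e ^ c) = 1 := by
  intro q
  have key : ∀ i : ℕ, q ^ (e ^ i) ∈ (⊤ : Subgroup Q).lowerCentralSeries i := by
    intro i
    induction i with
    | zero => simp
    | succ i ih =>
      rw [pow_succ, pow_mul]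
      exact exp_step Q e h i _ ih
  have h1 := key c
  rw [hc, Subgroup.mem_bot] at h1
  exact h1

/-- a nilpotent group generated by two elements of finite order is a torsion group -/
theorem tors_two (Q : Type*) [Group Q] [hQ : Group.IsNilpotent Q] (a b : Q)
    (hgen : Subgroup.closure {a, b} = ⊤) (ha : IsOfFinOrder a) (hb : IsOfFinOrder b) (q : Q) :
    IsOfFinOrder q := by
  obtain ⟨m, hm, ham⟩ := isOfFinOrder_iff_pow_eq_one.1 ha
  obtain ⟨n, hn, hbn⟩ := isOfFinOrder_iff_pow_eq_one.1 hb
  obtain ⟨c, hc⟩ := (nilpotent_iff_lowerCentralSeries (G := Q)).1 hQ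
  have h1 : ∀ q : Q, (Abelianization.of q) ^ (m * n) = 1 := by
    intro q
    have hq : q ∈ Subgroup.closure ({a, b} : Set Q) := by rw [hgen]; exact Subgroup.mem_top q
    induction hq using Subgroup.closure_induction with
    | mem x hx =>
      rcases hx with rfl | hx
      · rw [← map_pow, pow_mul, ham, one_pow, map_one]
      · rw [Set.mem_singleton_iff.1 hx, ← map_pow, mul_comm, pow_mul, hbn, one_pow, map_one]
    | one => rw [map_one, one_pow]
    | mul x y _ _ hx hy => rw [map_mul, mul_pow, hx, hy, one_mul]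
    | inv x _ hx => rw [map_inv, inv_pow, hx, inv_one]
  have h2 : ∀ q : Q, q ^ (m * n) ∈ commutator Q := by
    intro q
    have := h1 q
    rw [← map_pow] at this
    exact (QuotientGroup.eq_one_iff _).1 this
  have h3 := exp_nilp Q c hc (m * n) h2 q
  exact isOfFinOrder_iff_pow_eq_one.2 ⟨_, pow_pos (Nat.mul_pos hm hn) _, h3⟩

theorem tors_mul (G : Type*) [Group G] [Group.IsNilpotent G] {a b : G}
    (ha : IsOfFinOrder a) (hb : IsOfFinOrder b) : IsOfFinOrder (a * b) := by
  set Q := Subgroup.closure ({a, b} : Set G) with hQ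
  have haQ : a ∈ Q := Subgroup.subset_closure (by simp)
  have hbQ : b ∈ Q := Subgroup.subset_closure (by simp)
  have hgen : Subgroup.closure ({⟨a, haQ⟩, ⟨b, hbQ⟩} : Set Q) = ⊤ := by
    have h1 := Subgroup.closure_closure_coe_preimage (k := ({a, b} : Set G))
    rw [← h1]
    congr 1
    ext ⟨x, hx⟩
    simp [Subtype.ext_iff]
  have h2 := tors_two Q ⟨a, haQ⟩ ⟨b, hbQ⟩ hgen
    (Submonoid.isOfFinOrder_coe.mp (by simpa using ha))
    (Submonoid.isOfFinOrder_coe.mp (by simpa using hb)) (⟨a, haQ⟩ * ⟨b, hbQ⟩)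
  have h3 := MonoidHom.isOfFinOrder Q.subtype h2
  simpa using h3

/-- The elements of finite order of a finitely generated nilpotent group form a finite normal
subgroup, and the quotient is torsion-free. -/
theorem exists_tors (G : Type*) [Group G] [hG : Group.IsNilpotent G] (hfg : Group.FG G) :
    ∃ T : Subgroup G, T.Normal ∧ Finite T ∧ ∀ g : G, g ∈ T ↔ IsOfFinOrder g := by
  let T : Subgroup G :=
    { carrier := {g | IsOfFinOrder g}
      mul_mem' := fun ha hb => tors_mul G ha hb
      one_mem' := IsOfFinOrder.one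
      inv_mem' := fun ha => IsOfFinOrder.inv ha }
  have hT : ∀ g : G, g ∈ T ↔ IsOfFinOrder g := fun g => Iff.rfl
  refine ⟨T, ⟨fun n hn g => ?_⟩, ?_, hT⟩
  · have h1 := MonoidHom.isOfFinOrder (MulAut.conj g).toMonoidHom ((hT n).1 hn)
    rw [hT]
    simpa using h1
  · have hfgT : Group.FG T := (Group.fg_iff_subgroup_fg _).2 (maxC G hfg T)
    refine Helper111.EN.finite_of_fg_nilpotent T fun t => ?_
    exact Submonoid.isOfFinOrder_coe.mp ((hT t).1 t.2)

theorem quot_tf {G : Type*} [Group G] (T : Subgroup G) [T.Normal] 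
    (hT : ∀ g : G, g ∈ T ↔ IsOfFinOrder g) (x : G ⧸ T) (n : ℕ) (hn : 0 < n) (hx : x ^ n = 1) :
    x = 1 := by
  obtain ⟨g, rfl⟩ := QuotientGroup.mk_surjective x
  rw [← QuotientGroup.mk_pow, QuotientGroup.eq_one_iff, hT] at hx
  rw [QuotientGroup.eq_one_iff, hT]
  exact (isOfFinOrder_pow.1 hx).resolve_right hn.ne'

/-- a finite normal subgroup with torsion-free quotient is the torsion subgroup -/
theorem tors_unique {G : Type*} [Group G] (T : Subgroup G) [T.Normal] [Finite T]
    (hT : ∀ (x : G ⧸ T) (n : ℕ), 0 < n → x ^ n = 1 → x = 1) (g : G) :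
    g ∈ T ↔ IsOfFinOrder g := by
  constructor
  · intro hg
    have h1 : IsOfFinOrder (⟨g, hg⟩ : T) := isOfFinOrder_of_finite _
    have h2 := MonoidHom.isOfFinOrder T.subtype h1
    simpa using h2
  · intro hg
    obtain ⟨n, hn, hgn⟩ := isOfFinOrder_iff_pow_eq_one.1 hg
    rw [← QuotientGroup.eq_one_iff]
    exact hT _ n hn (by rw [← QuotientGroup.mk_pow, hgn, QuotientGroup.mk_one])

/-- A finitely generated nilpotent group has a torsion-free normal subgroup of finite index. -/
theorem exists_tf (G : Type*) [Group G] [hG : Group.IsNilpotent G] (hfg : Group.FG G) :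
    ∃ K : Subgroup G, K.Normal ∧ K.FiniteIndex ∧ ∀ g ∈ K, IsOfFinOrder g → g = 1 := by
  obtain ⟨T, hTn, hTf, hT⟩ := exists_tors G hfg
  have hs : Group.IsSolvable G := inferInstance
  obtain ⟨K, hK1, hK2, hK3⟩ := exists_avoid_finite (maxC G hfg) hs ((T : Set G) \ {1})
    (Set.Finite.subset (Set.toFinite (T : Set G)) Set.diff_subset) (by simp)
  refine ⟨K, hK2, hK1, fun g hg hgt => ?_⟩
  by_contra h
  exact hK3 g ⟨(hT g).2 hgt, by simpa using h⟩ hg

theorem exists_avoid' (G : Type*) [Group G] [hG : Group.IsNilpotent G] (hfg : Group.FG G) (g : G)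
    (hg : g ≠ 1) : ∃ K : Subgroup G, K.Normal ∧ K.FiniteIndex ∧ g ∉ K := by
  have hs : Group.IsSolvable G := inferInstance
  obtain ⟨K, hK1, hK2, hK3⟩ := exists_avoid_finite (maxC G hfg) hs {g} (Set.finite_singleton g)
    (by simpa using hg.symm)
  exact ⟨K, hK2, hK1, hK3 g rfl⟩

end Pool.Agent.Q108.NRF
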