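import Pool.Agent.Q108.NRF.Grp
import Pool.Agent.Q26.RF.Main
import Pool.Agent.Q26.RF.Flag

/-!
# Residual finiteness growth: subgroups, finite normal subgroups, completions
-/

set_option autoImplicit false

namespace Pool.Agent.Q108.NRF

open Pool.Agent.TH91.RF Pool.Agent.Q26.RF

section dom

theorem Dominated.trans {f g h : ℕ → ℕ} (h1 : Dominated f g) (h2 : Dominated g h) :
    Dominated f h := by
  obtain ⟨C₁, hC₁, h1⟩ := h1
  obtain ⟨C₂, hC₂, h2⟩ := h2
  refine ⟨C₁ * C₂, Nat.mul_pos hC₁ hC₂, fun n => ?_⟩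
  calc f n ≤ C₁ * g (C₁ * n) := h1 n
    _ ≤ C₁ * (C₂ * h (C₂ * (C₁ * n))) := Nat.mul_le_mul_left _ (h2 _)
    _ = C₁ * C₂ * h (C₁ * C₂ * n) := by
      rw [← mul_assoc]
      congr 2
      ring

theorem GrowthEquiv.trans {f g h : ℕ → ℕ} (h1 : GrowthEquiv f g) (h2 : GrowthEquiv g h) :
    GrowthEquiv f h :=
  ⟨Dominated.trans h1.1 h2.1, Dominated.trans h2.2 h1.2⟩

theorem GrowthEquiv.symm {f g : ℕ → ℕ} (h : GrowthEquiv f g) : GrowthEquiv g f := ⟨h.2, h.1⟩

end dom

section words

variable {G H : Type*} [Group G] [Group H] {S : Set G} {R : Set H}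

theorem wordLen_mul (hgen : Subgroup.closure S = ⊤) (a b : G) :
    wordLen S (a * b) ≤ wordLen S a + wordLen S b := by
  obtain ⟨l, hl, hlS, hlp⟩ := exists_word hgen a
  obtain ⟨k, hk, hkS, hkp⟩ := exists_word hgen b
  have h1 := wordLen_le (S := S) (l ++ k) (by
    intro s hs
    rcases List.mem_append.1 hs with h | h
    · exact hlS s h
    · exact hkS s h)
  rw [List.prod_append, hlp, hkp, List.length_append, hl, hk] at h1
  exact h1

theorem wordLen_inv (hgen : Subgroup.closure S = ⊤) (a : G) :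
    wordLen S a⁻¹ ≤ wordLen S a := by
  obtain ⟨l, hl, hlS, hlp⟩ := exists_word hgen a
  have h1 := wordLen_le (S := S) (l.map (fun x => x⁻¹)).reverse (by
    intro s hs
    rw [List.mem_reverse, List.mem_map] at hs
    obtain ⟨t, ht, rfl⟩ := hs
    rcases hlS t ht with h | h
    · exact Or.inr (by rwa [inv_inv])
    · exact Or.inl h)
  rw [← List.prod_inv_reverse, hlp, List.length_reverse, List.length_map, hl] at h1
  exact h1

/-- homomorphisms are Lipschitz -/
theorem wordLen_hom (f : H →* G) (hR : R.Finite) (hgR : Subgroup.closure R = ⊤)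
    (hgen : Subgroup.closure S = ⊤) :
    ∃ C : ℕ, 0 < C ∧ ∀ h : H, wordLen S (f h) ≤ C * wordLen R h := by
  obtain ⟨C, hC⟩ : ∃ C : ℕ, ∀ r ∈ R, wordLen S (f r) ≤ C :=
    ⟨hR.toFinset.sup (fun r => wordLen S (f r)), fun r hr =>
      Finset.le_sup (f := fun r => wordLen S (f r)) (hR.mem_toFinset.2 hr)⟩
  refine ⟨C + 1, Nat.succ_pos _, fun h => ?_⟩
  obtain ⟨l, hl, hlS, rfl⟩ := exists_word hgR h
  rw [← hl]
  clear hl
  induction l with
  | nil => simp [wordLen_one]
  | cons a l ih =>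
    have h1 : wordLen S (f a) ≤ C + 1 := by
      rcases hlS a (by simp) with h | h
      · exact (hC a h).trans (Nat.le_succ _)
      · have h2 := wordLen_inv hgen (f a)⁻¹
        rw [inv_inv, ← map_inv] at h2
        exact (h2.trans (hC _ h)).trans (Nat.le_succ _)
    have h2 := ih (fun s hs => hlS s (by simp [hs]))
    rw [List.prod_cons, map_mul, List.length_cons]
    calc wordLen S (f a * f l.prod) ≤ wordLen S (f a) + wordLen S (f l.prod) :=
          wordLen_mul hgen _ _
      _ ≤ (C + 1) + (C + 1) * l.length := Nat.add_le_add h1 h2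
      _ = _ := by ring

/-- balls are finite -/
theorem ball_finite (hS : S.Finite) (hgen : Subgroup.closure S = ⊤) (n : ℕ) :
    {g : G | wordLen S g ≤ n}.Finite := by
  have hS' : (S ∪ {s | s⁻¹ ∈ S}).Finite := by
    refine hS.union ?_
    exact hS.preimage (fun a _ b _ hab => inv_injective hab)
  have : Finite ↥(S ∪ {s | s⁻¹ ∈ S}) := hS'
  have h1 : {l : List ↥(S ∪ {s | s⁻¹ ∈ S}) | l.length ≤ n}.Finite := List.finite_length_le _ n
  refine (h1.image (fun l => (l.map Subtype.val).prod)).subset ?_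
  intro g hg
  obtain ⟨l, hl, hlS, hlp⟩ := exists_word hgen g
  refine ⟨l.attach.map (fun x => ⟨x.1, hlS x.1 x.2⟩), ?_, ?_⟩
  · change List.length _ ≤ n
    rw [List.length_map, List.length_attach, hl]
    exact hg
  · change (List.map Subtype.val (l.attach.map _)).prod = g
    rw [List.map_map]
    have : (Subtype.val ∘ fun x : {x // x ∈ l} => (⟨x.1, hlS x.1 x.2⟩ :
        ↥(S ∪ {s | s⁻¹ ∈ S}))) = Subtype.val := rfl
    rw [this, List.attach_map_subtype_val, hlp]

theorem bdd (hS : S.Finite) (hgen : Subgroup.closure S = ⊤) (n : ℕ) :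
    BddAbove {m : ℕ | ∃ g : G, g ≠ 1 ∧ wordLen S g ≤ n ∧ depth g = m} := by
  refine ((ball_finite hS hgen n).image (fun g => depth g)).bddAbove.mono ?_
  rintro m ⟨g, _, hg, rfl⟩
  exact ⟨g, hg, rfl⟩

theorem depth_le_rf (hS : S.Finite) (hgen : Subgroup.closure S = ⊤) {n : ℕ} {g : G} (hg : g ≠ 1)
    (hn : wordLen S g ≤ n) : depth g ≤ rfGrowth S n :=
  le_csSup (bdd hS hgen n) ⟨g, hg, hn, rfl⟩

theorem rf_le {n M : ℕ} (h : ∀ g : G, g ≠ 1 → wordLen S g ≤ n → depth g ≤ M) :
    rfGrowth S n ≤ M := by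
  unfold rfGrowth
  rcases Set.eq_empty_or_nonempty
    {m : ℕ | ∃ g : G, g ≠ 1 ∧ wordLen S g ≤ n ∧ depth g = m} with h0 | h0
  · rw [h0]; simp
  · refine csSup_le h0 ?_
    rintro m ⟨g, hg, hgn, rfl⟩
    exact h g hg hgn

theorem rf_mono (hS : S.Finite) (hgen : Subgroup.closure S = ⊤) {m n : ℕ} (hmn : m ≤ n) :
    rfGrowth S m ≤ rfGrowth S n :=
  rf_le fun _ hg hgm => depth_le_rf hS hgen hg (hgm.trans hmn)

/-- subgroups -/
theorem dominated_of_injective (f : H →* G) (hf : Function.Injective f) (hR : R.Finite)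
    (hgR : Subgroup.closure R = ⊤) (hS : S.Finite) (hgen : Subgroup.closure S = ⊤)
    (hres : ∀ g : G, g ≠ 1 → ∃ K : Subgroup G, K.Normal ∧ K.FiniteIndex ∧ g ∉ K) :
    Dominated (rfGrowth R) (rfGrowth S) := by
  obtain ⟨C, hC, hCf⟩ := wordLen_hom f hR hgR hgen
  refine ⟨C, hC, fun n => ?_⟩
  refine (rf_le fun h hh hhn => ?_).trans (Nat.le_mul_of_pos_left _ hC)
  have hfh : f h ≠ 1 := fun h0 => hh (hf (by rw [h0, map_one]))
  refine le_trans ?_ (depth_le_rf hS hgen hfh ((hCf h).trans (Nat.mul_le_mul_left C hhn)))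
  obtain ⟨K, hKn, hKf, hgK, hKi⟩ := depth_spec (hres _ hfh)
  rw [← hKi]
  have h0 : K.relIndex f.range ≠ 0 := (Subgroup.instFiniteIndex_subgroupOf K f.range).index_ne_zero
  have h1 : (K.comap f).FiniteIndex := ⟨by rw [Subgroup.index_comap]; exact h0⟩
  have h2 : depth h ≤ (K.comap f).index := depth_le inferInstance h1 (by simpa using hgK)
  refine h2.trans ?_
  rw [Subgroup.index_comap]
  have h3 := Subgroup.relIndex_le_of_le_right (H := K) (le_top : f.range ≤ ⊤)
    (by rw [Subgroup.relIndex_top_right]; exact hKf.index_ne_zero)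
  rwa [Subgroup.relIndex_top_right] at h3

/-- the growth of a nontrivial group is positive -/
theorem rf_pos [hG : Nontrivial G] (hS : S.Finite) (hgen : Subgroup.closure S = ⊤)
    (hres : ∀ g : G, g ≠ 1 → ∃ K : Subgroup G, K.Normal ∧ K.FiniteIndex ∧ g ∉ K) {n : ℕ}
    (hn : 1 ≤ n) : 1 ≤ rfGrowth S n := by
  obtain ⟨r, hr, hr1⟩ : ∃ r ∈ S, r ≠ 1 := by
    by_contra hcon
    push Not at hcon
    have h1 : Subgroup.closure S ≤ ⊥ := by
      rw [Subgroup.closure_le]
      intro s hs
      exact hcon s hs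
    rw [hgen] at h1
    obtain ⟨x, hx⟩ := exists_ne (1 : G)
    exact hx (h1 (Subgroup.mem_top x))
  have h2 : wordLen S r ≤ n := by
    have h1 := wordLen_le (S := S) [r] (by
      intro t ht
      rw [List.mem_singleton] at ht
      rw [ht]
      exact Or.inl hr)
    rw [List.prod_singleton, List.length_singleton] at h1
    omega
  refine le_trans ?_ (depth_le_rf hS hgen hr1 h2)
  obtain ⟨K, _, hKf, _, hKd⟩ := depth_spec (hres r hr1)
  rw [← hKd]
  exact Nat.pos_of_ne_zero hKf.index_ne_zero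

end words

section quot

variable {G : Type*} [Group G] {S : Set G}

/-- quotients by finite normal subgroups -/
theorem dominated_quot (T : Subgroup G) [hTn : T.Normal] (hT : Finite T) (hS : S.Finite)
    (hgen : Subgroup.closure S = ⊤) {R : Set (G ⧸ T)} (hR : R.Finite)
    (hgR : Subgroup.closure R = ⊤) (hinf : Nontrivial (G ⧸ T))
    (hres : ∀ g : G ⧸ T, g ≠ 1 → ∃ K : Subgroup (G ⧸ T), K.Normal ∧ K.FiniteIndex ∧ g ∉ K) :
    Dominated (rfGrowth S) (rfGrowth R) := by
  obtain ⟨C, hC, hCf⟩ := wordLen_hom (QuotientGroup.mk' T) hS hgen hgR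
  obtain ⟨B, hB⟩ : ∃ B : ℕ, ∀ g ∈ T, depth g ≤ B := by
    have h1 : (Set.range fun t : T => depth (t : G)).Finite := Set.finite_range _
    obtain ⟨B, hB⟩ := h1.bddAbove
    exact ⟨B, fun g hg => hB ⟨⟨g, hg⟩, rfl⟩⟩
  -- the growth of the quotient is positive
  have hpos : ∀ n : ℕ, 1 ≤ n → 1 ≤ rfGrowth R n := fun n hn => rf_pos hR hgR hres hn
  set D : ℕ := C + B + 1 with hD
  refine ⟨D, by omega, fun n => ?_⟩
  rcases Nat.eq_zero_or_pos n with rfl | hn
  · rw [rfGrowth_zero hgen]
    exact Nat.zero_le _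
  have hCn : C * n ≤ D * n := Nat.mul_le_mul_right n (by omega)
  have hDn : 1 ≤ D * n := Nat.mul_pos (by omega) hn
  refine rf_le fun g hg hgn => ?_
  by_cases hgT : g ∈ T
  · calc depth g ≤ B := hB g hgT
      _ ≤ D * 1 := by omega
      _ ≤ D * rfGrowth R (D * n) := Nat.mul_le_mul_left _ (hpos _ hDn)
  · have hg1 : (QuotientGroup.mk' T g) ≠ 1 := by
      intro h0
      exact hgT ((QuotientGroup.eq_one_iff g).1 h0)
    have h1 : depth g ≤ depth (QuotientGroup.mk' T g) := by
      obtain ⟨K, hKn, hKf, hgK, hKi⟩ := depth_spec (hres _ hg1)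
      rw [← hKi]
      have h1 : (K.comap (QuotientGroup.mk' T)).FiniteIndex :=
        ⟨by rw [Subgroup.index_comap_of_surjective _ (QuotientGroup.mk'_surjective T)]
            exact hKf.index_ne_zero⟩
      have h2 : depth g ≤ (K.comap (QuotientGroup.mk' T)).index :=
        depth_le inferInstance h1 (by simpa using hgK)
      rwa [Subgroup.index_comap_of_surjective _ (QuotientGroup.mk'_surjective T)] at h2
    calc depth g ≤ depth (QuotientGroup.mk' T g) := h1
      _ ≤ rfGrowth R (D * n) := depth_le_rf hR hgR hg1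
        (((hCf g).trans (Nat.mul_le_mul_left C hgn)).trans hCn)
      _ ≤ D * rfGrowth R (D * n) := Nat.le_mul_of_pos_left _ (by omega)

end quot

section completions

attribute [local instance 100] LieRing.ofAssociativeRing

/-- A Mal'cev completion of `G` is one of every subgroup of finite index. -/
noncomputable def restrict {G H : Type*} [Group G] [Group H] (c : MalcevCompletion G) (f : H →* G)
    (hf : Function.Injective f) (hpow : ∀ g : G, ∃ m : ℕ, 0 < m ∧ g ^ m ∈ f.range) :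
    MalcevCompletion H where
  N := c.N
  L := c.L
  upper := c.upper
  ρ := c.ρ.comp f
  injective := c.injective.comp hf
  exp_mem h := c.exp_mem (f h)
  dense X hX := by
    obtain ⟨m, hm, g, hg⟩ := c.dense X hX
    obtain ⟨k, hk, h, hh⟩ := hpow g
    refine ⟨k * m, Nat.mul_pos hk hm, h, ?_⟩
    change c.ρ (f h) = _
    rw [hh, map_pow, hg]
    have hmX : m • X ∈ (matFilt c.N).F 1 := mem_filt c (c.L.toSubmodule.nsmul_mem hX m)
    rw [← exp_nsmul hmX, smul_smul]

end completions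

end Pool.Agent.Q108.NRF
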