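import Pool.Agent.Q108.NRF.Len

/-!
# Residual finiteness growth of finitely generated nilpotent groups with torsion
-/

set_option autoImplicit false

namespace Pool.Agent.Q108.NRF

open Pool.Agent.TH91.RF Pool.Agent.Q26.RF

attribute [local instance 100] LieRing.ofAssociativeRing

section

variable {G : Type*} [Group G] [hG : Group.IsNilpotent G]

theorem nontrivial_quot [hinf : Infinite G] (T : Subgroup G) [T.Normal] (hT : Finite T) :
    Nontrivial (G ⧸ T) := by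
  by_contra hcon
  rw [not_nontrivial_iff_subsingleton] at hcon
  have h1 : T = ⊤ := by
    rw [eq_top_iff]
    intro g _
    rw [← QuotientGroup.eq_one_iff]
    exact Subsingleton.elim _ _
  rw [h1] at hT
  have h2 : Finite G := Finite.of_equiv _ (Subgroup.topEquiv (G := G)).toEquiv
  exact not_finite G

theorem closure_image {S : Set G} (hgen : Subgroup.closure S = ⊤) (T : Subgroup G) [T.Normal] :
    Subgroup.closure ((QuotientGroup.mk' T) '' S) = ⊤ := by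
  rw [← MonoidHom.map_closure, hgen, ← MonoidHom.range_eq_map]
  exact MonoidHom.range_eq_top.2 (QuotientGroup.mk'_surjective T)

theorem fg_of {S : Set G} (hS : S.Finite) (hgen : Subgroup.closure S = ⊤) : Group.FG G :=
  Group.fg_iff.2 ⟨S, hgen, hS⟩

theorem exists_gens (H : Type*) [Group H] (h : Group.FG H) :
    ∃ S : Set H, S.Finite ∧ Subgroup.closure S = ⊤ := by
  obtain ⟨S, hS, hSf⟩ := Group.fg_iff.1 h
  exact ⟨S, hSf, hS⟩

/-- A finitely generated nilpotent group has the same growth as its quotient by the torsion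
subgroup. -/
theorem equiv_quot [hinf : Infinite G] {S : Set G} (hS : S.Finite)
    (hgen : Subgroup.closure S = ⊤) (T : Subgroup G) [hTn : T.Normal] (hTf : Finite T)
    (hT : ∀ (x : G ⧸ T) (n : ℕ), 0 < n → x ^ n = 1 → x = 1) :
    GrowthEquiv (rfGrowth S) (rfGrowth ((QuotientGroup.mk' T) '' S)) := by
  have hfg : Group.FG G := fg_of hS hgen
  have hfgQ : Group.FG (G ⧸ T) := QuotientGroup.fg _
  have hnil : Group.IsNilpotent (G ⧸ T) := inferInstance
  have hR : ((QuotientGroup.mk' T) '' S).Finite := hS.image _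
  have hgR := closure_image hgen T
  have hnt := nontrivial_quot T hTf
  refine ⟨dominated_quot T hTf hS hgen hR hgR hnt (exists_avoid' (G ⧸ T) hfgQ), ?_⟩
  obtain ⟨K, hKn, hKf, hKt⟩ := exists_tf G hfg
  obtain ⟨c⟩ := exists_completion (G ⧸ T) hfgQ hT
  have hmem := tors_unique T hT
  set f : K →* G ⧸ T := (QuotientGroup.mk' T).comp K.subtype with hf
  have hfinj : Function.Injective f := by
    rw [injective_iff_map_eq_one]
    intro k hk
    have h1 : (k : G) ∈ T := (QuotientGroup.eq_one_iff _).1 hk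
    exact Subtype.ext (hKt k k.2 ((hmem _).1 h1))
  have hpow : ∀ g : G ⧸ T, ∃ m : ℕ, 0 < m ∧ g ^ m ∈ f.range := by
    intro x
    obtain ⟨g, rfl⟩ := QuotientGroup.mk'_surjective T x
    refine ⟨K.index, Nat.pos_of_ne_zero hKf.index_ne_zero, ⟨g ^ K.index, ?_⟩, ?_⟩
    · exact Subgroup.pow_index_mem K g
    · rw [hf, MonoidHom.comp_apply, Subgroup.coe_subtype, map_pow]
  have hKfg : Group.FG K := (Group.fg_iff_subgroup_fg _).2 (maxC G hfg K)
  obtain ⟨SK, hSK, hgK⟩ := exists_gens K hKfg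
  have hKnil : Group.IsNilpotent K := inferInstance
  have h1 : Dominated (rfGrowth ((QuotientGroup.mk' T) '' S)) (rfGrowth SK) :=
    dominated c (restrict c f hfinj hpow) hR hgR hSK hgK
      (LieEquiv.refl : c.CLie ≃ₗ⁅ℂ⁆ c.CLie)
  have h2 : Dominated (rfGrowth SK) (rfGrowth S) :=
    dominated_of_injective K.subtype K.subtype_injective hSK hgK hS hgen (exists_avoid' G hfg)
  exact Dominated.trans h1 h2

theorem tf_equiv {G₁ G₂ : Type*} [Group G₁] [Group G₂] [Group.IsNilpotent G₁]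
    [Group.IsNilpotent G₂] (c₁ : MalcevCompletion G₁) (c₂ : MalcevCompletion G₂) {S₁ : Set G₁}
    {S₂ : Set G₂} (hS₁ : S₁.Finite) (hgen₁ : Subgroup.closure S₁ = ⊤) (hS₂ : S₂.Finite)
    (hgen₂ : Subgroup.closure S₂ = ⊤) (φ : c₁.CLie ≃ₗ⁅ℂ⁆ c₂.CLie) :
    GrowthEquiv (rfGrowth S₁) (rfGrowth S₂) :=
  ⟨dominated c₁ c₂ hS₁ hgen₁ hS₂ hgen₂ φ, dominated c₂ c₁ hS₂ hgen₂ hS₁ hgen₁ φ.symm⟩

/-- a Mal'cev completion exists only for torsion-free groups -/
theorem tf_of_completion {Q : Type*} [Group Q] (c : MalcevCompletion Q) (x : Q) (n : ℕ)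
    (hn : 0 < n) (hx : x ^ n = 1) : x = 1 := by
  obtain ⟨X, hX, hxX⟩ := c.exp_mem x
  have h1 : c.ρ (x ^ n) = IsNilpotent.exp (n • X) := by
    rw [map_pow, hxX, exp_nsmul (mem_filt c hX)]
  rw [hx, map_one] at h1
  have h2 := eq_zero_of_exp c (c.L.toSubmodule.nsmul_mem hX n) h1.symm
  rw [← Nat.cast_smul_eq_nsmul ℚ, smul_eq_zero] at h2
  rcases h2 with h2 | h2
  · exact absurd (by exact_mod_cast h2 : n = 0) (by omega)
  · apply c.injective
    rw [hxX, h2, IsNilpotent.exp_zero, map_one]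

/-- **Isomorphic complex completions.** -/
theorem main_iso {G₁ G₂ : Type*} [Group G₁] [Group G₂] [Group.IsNilpotent G₁]
    [Group.IsNilpotent G₂] [Infinite G₁] [Infinite G₂] {S₁ : Set G₁} {S₂ : Set G₂}
    (hS₁ : S₁.Finite) (hgen₁ : Subgroup.closure S₁ = ⊤) (hS₂ : S₂.Finite)
    (hgen₂ : Subgroup.closure S₂ = ⊤) (T₁ : Subgroup G₁) (T₂ : Subgroup G₂) [T₁.Normal]
    [T₂.Normal] (hT₁ : Finite T₁) (hT₂ : Finite T₂) (c₁ : MalcevCompletion (G₁ ⧸ T₁))
    (c₂ : MalcevCompletion (G₂ ⧸ T₂)) (φ : c₁.CLie ≃ₗ⁅ℂ⁆ c₂.CLie) :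
    GrowthEquiv (rfGrowth S₁) (rfGrowth S₂) := by
  have h1 := equiv_quot hS₁ hgen₁ T₁ hT₁ (tf_of_completion c₁)
  have h2 := equiv_quot hS₂ hgen₂ T₂ hT₂ (tf_of_completion c₂)
  have h3 := tf_equiv c₁ c₂ (hS₁.image _) (closure_image hgen₁ T₁) (hS₂.image _)
    (closure_image hgen₂ T₂) φ
  exact GrowthEquiv.trans h1 (GrowthEquiv.trans h3 (GrowthEquiv.symm h2))

end

section virtual

/-- a subgroup of finite index, modulo a finite group and torsion, has the same completion -/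
theorem exists_embedding {G : Type*} [Group G] (T : Subgroup G) [T.Normal]
    (hT : ∀ g : G, g ∈ T ↔ IsOfFinOrder g) (H : Subgroup G) [hH : H.FiniteIndex] {Q : Type*}
    [Group Q] (π : H →* Q) (hπ : Function.Surjective π) (hker : Finite π.ker) (U : Subgroup Q)
    [U.Normal] (hU : ∀ q : Q, q ∈ U ↔ IsOfFinOrder q) :
    ∃ f : Q ⧸ U →* G ⧸ T, Function.Injective f ∧
      ∀ g : G ⧸ T, ∃ m : ℕ, 0 < m ∧ g ^ m ∈ f.range := by
  set α : H →* G ⧸ T := (QuotientGroup.mk' T).comp H.subtype with hα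
  set β : H →* Q ⧸ U := (QuotientGroup.mk' U).comp π with hβ
  have hβs : Function.Surjective β := (QuotientGroup.mk'_surjective U).comp hπ
  have hkα : ∀ h : H, h ∈ α.ker ↔ IsOfFinOrder (h : G) := by
    intro h
    rw [MonoidHom.mem_ker, ← hT]
    exact QuotientGroup.eq_one_iff _
  have hkβ : ∀ h : H, h ∈ β.ker ↔ IsOfFinOrder (h : G) := by
    intro h
    rw [MonoidHom.mem_ker]
    have h1 : β h = 1 ↔ π h ∈ U := QuotientGroup.eq_one_iff _
    rw [h1, hU]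
    constructor
    · intro h2
      obtain ⟨n, hn, hn1⟩ := isOfFinOrder_iff_pow_eq_one.1 h2
      rw [← map_pow, ← MonoidHom.mem_ker] at hn1
      have h3 : IsOfFinOrder (⟨h ^ n, hn1⟩ : π.ker) := isOfFinOrder_of_finite _
      have h4 : IsOfFinOrder (h ^ n) := Submonoid.isOfFinOrder_coe.mpr h3
      have h5 : IsOfFinOrder h := (isOfFinOrder_pow.1 h4).resolve_right hn.ne'
      exact Submonoid.isOfFinOrder_coe.mpr h5
    · intro h2
      have h3 : IsOfFinOrder h := Submonoid.isOfFinOrder_coe.mp h2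
      exact MonoidHom.isOfFinOrder π h3
  set f : Q ⧸ U →* G ⧸ T := β.liftOfSurjective hβs ⟨α, fun h hh => (hkα h).2 ((hkβ h).1 hh)⟩
    with hf
  have hfβ : ∀ h, f (β h) = α h := fun h =>
    MonoidHom.liftOfRightInverse_comp_apply β _ (Function.rightInverse_surjInv hβs) _ h
  refine ⟨f, ?_, ?_⟩
  · rw [injective_iff_map_eq_one]
    intro x hx
    obtain ⟨h, rfl⟩ := hβs x
    rw [hfβ] at hx
    exact (hkβ h).2 ((hkα h).1 hx)
  · intro x
    obtain ⟨g, rfl⟩ := QuotientGroup.mk'_surjective T x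
    have hcore : H.normalCore.FiniteIndex := inferInstance
    refine ⟨H.normalCore.index, Nat.pos_of_ne_zero hcore.index_ne_zero, ?_⟩
    have h1 : g ^ H.normalCore.index ∈ H :=
      H.normalCore_le (Subgroup.pow_index_mem H.normalCore g)
    refine ⟨β ⟨_, h1⟩, ?_⟩
    rw [hfβ, hα, MonoidHom.comp_apply, Subgroup.coe_subtype, map_pow]

/-- **Virtually isomorphic groups.** -/
theorem main_virtual {G₁ G₂ Q : Type*} [Group G₁] [Group G₂] [Group Q] [Group.IsNilpotent G₁]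
    [Group.IsNilpotent G₂] [Infinite G₁] [Infinite G₂] {S₁ : Set G₁} {S₂ : Set G₂}
    (hS₁ : S₁.Finite) (hgen₁ : Subgroup.closure S₁ = ⊤) (hS₂ : S₂.Finite)
    (hgen₂ : Subgroup.closure S₂ = ⊤) (H₁ : Subgroup G₁) (H₂ : Subgroup G₂)
    [hH₁ : H₁.FiniteIndex] [hH₂ : H₂.FiniteIndex] (π₁ : H₁ →* Q) (π₂ : H₂ →* Q)
    (hπ₁ : Function.Surjective π₁) (hπ₂ : Function.Surjective π₂) (hk₁ : Finite π₁.ker)
    (hk₂ : Finite π₂.ker) : GrowthEquiv (rfGrowth S₁) (rfGrowth S₂) := by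
  have hfg₁ := fg_of hS₁ hgen₁
  have hfg₂ := fg_of hS₂ hgen₂
  have hfH₁ : Group.FG H₁ := (Group.fg_iff_subgroup_fg _).2 (maxC G₁ hfg₁ H₁)
  have hQnil : Group.IsNilpotent Q := Group.nilpotent_of_surjective π₁ hπ₁
  have hQfg : Group.FG Q := Group.fg_of_surjective hπ₁
  obtain ⟨T₁, hTn₁, hTf₁, hT₁⟩ := exists_tors G₁ hfg₁
  obtain ⟨T₂, hTn₂, hTf₂, hT₂⟩ := exists_tors G₂ hfg₂
  obtain ⟨U, hUn, hUf, hU⟩ := exists_tors Q hQfg
  obtain ⟨f₁, hf₁, hp₁⟩ := exists_embedding T₁ hT₁ H₁ π₁ hπ₁ hk₁ U hU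
  obtain ⟨f₂, hf₂, hp₂⟩ := exists_embedding T₂ hT₂ H₂ π₂ hπ₂ hk₂ U hU
  obtain ⟨c₁⟩ := exists_completion (G₁ ⧸ T₁) (QuotientGroup.fg _) (quot_tf T₁ hT₁)
  obtain ⟨c₂⟩ := exists_completion (G₂ ⧸ T₂) (QuotientGroup.fg _) (quot_tf T₂ hT₂)
  have hPfg : Group.FG (Q ⧸ U) := QuotientGroup.fg _
  obtain ⟨R, hR, hgR⟩ := exists_gens (Q ⧸ U) hPfg
  have e1 := equiv_quot hS₁ hgen₁ T₁ hTf₁ (quot_tf T₁ hT₁)
  have e2 := equiv_quot hS₂ hgen₂ T₂ hTf₂ (quot_tf T₂ hT₂)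
  have e3 : GrowthEquiv (rfGrowth ((QuotientGroup.mk' T₁) '' S₁)) (rfGrowth R) :=
    tf_equiv c₁ (restrict c₁ f₁ hf₁ hp₁) (hS₁.image _) (closure_image hgen₁ T₁) hR hgR
      (LieEquiv.refl : c₁.CLie ≃ₗ⁅ℂ⁆ c₁.CLie)
  have e4 : GrowthEquiv (rfGrowth ((QuotientGroup.mk' T₂) '' S₂)) (rfGrowth R) :=
    tf_equiv c₂ (restrict c₂ f₂ hf₂ hp₂) (hS₂.image _) (closure_image hgen₂ T₂) hR hgR
      (LieEquiv.refl : c₂.CLie ≃ₗ⁅ℂ⁆ c₂.CLie)
  exact GrowthEquiv.trans e1 (GrowthEquiv.trans e3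
    (GrowthEquiv.trans (GrowthEquiv.symm e4) (GrowthEquiv.symm e2)))

end virtual

end Pool.Agent.Q108.NRF
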