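import Pool.Agent.Q108.NRF.FiveE

/-!
# Two groups with isomorphic associated graded Lie algebras and different growths
-/

set_option autoImplicit false

namespace Pool.Agent.Q108.NRF

open Pool.Agent.TH91.RF Pool.Agent.Q26.RF

attribute [local instance 100] LieRing.ofAssociativeRing

/-- the Lie algebra of dimension five with `ε = 1`, as matrices -/
def m1 : (Fin 5 → ℚ) →ₗ[ℚ] Matrix (Fin 4) (Fin 4) ℚ where
  toFun v := !![0, v 0, -v 4, v 3; 0, 0, v 0, v 2; 0, 0, 0, v 1; 0, 0, 0, 0]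
  map_add' a b := by
    ext i j
    fin_cases i <;> fin_cases j <;> simp [add_comm]
  map_smul' a b := by
    ext i j
    fin_cases i <;> fin_cases j <;> simp

/-- the Lie algebra of dimension five with `ε = 0`, as matrices -/
def m2 : (Fin 5 → ℚ) →ₗ[ℚ] Matrix (Fin 5) (Fin 5) ℚ where
  toFun v := !![0, v 0, 0, v 3, v 4; 0, 0, v 0, v 2, 0; 0, 0, 0, v 1, 0; 0, 0, 0, 0, 0;
    0, 0, 0, 0, 0]
  map_add' a b := by
    ext i j
    fin_cases i <;> fin_cases j <;> simp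
  map_smul' a b := by
    ext i j
    fin_cases i <;> fin_cases j <;> simp

theorem m1_apply (v : Fin 5 → ℚ) :
    m1 v = !![0, v 0, -v 4, v 3; 0, 0, v 0, v 2; 0, 0, 0, v 1; 0, 0, 0, 0] := rfl

theorem m2_apply (v : Fin 5 → ℚ) :
    m2 v = !![0, v 0, 0, v 3, v 4; 0, 0, v 0, v 2, 0; 0, 0, 0, v 1, 0; 0, 0, 0, 0, 0;
      0, 0, 0, 0, 0] := rfl

theorem m1_inj : Function.Injective m1 := by
  rw [injective_iff_map_eq_zero]
  intro v hv
  rw [m1_apply] at hv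
  have h0 := congrFun (congrFun hv 0) 1
  have h1 := congrFun (congrFun hv 2) 3
  have h2 := congrFun (congrFun hv 1) 3
  have h3 := congrFun (congrFun hv 0) 3
  have h4 := congrFun (congrFun hv 0) 2
  simp at h0 h1 h2 h3 h4
  ext j
  fin_cases j <;> assumption

theorem m2_inj : Function.Injective m2 := by
  rw [injective_iff_map_eq_zero]
  intro v hv
  rw [m2_apply] at hv
  have h0 := congrFun (congrFun hv 0) 1
  have h1 := congrFun (congrFun hv 2) 3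
  have h2 := congrFun (congrFun hv 1) 3
  have h3 := congrFun (congrFun hv 0) 3
  have h4 := congrFun (congrFun hv 0) 4
  simp at h0 h1 h2 h3 h4
  ext j
  fin_cases j <;> assumption

theorem m1_up (v : Fin 5 → ℚ) : m1 v ∈ (matFilt 4).F 1 := by
  rw [mem_matFilt, m1_apply]
  intro i j hij
  fin_cases i <;> fin_cases j <;> simp at hij ⊢

theorem m2_up (v : Fin 5 → ℚ) : m2 v ∈ (matFilt 5).F 1 := by
  rw [mem_matFilt, m2_apply]
  intro i j hij
  fin_cases i <;> fin_cases j <;> simp at hij ⊢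

theorem m1_br (u v : Fin 5 → ℚ) : m1 u * m1 v - m1 v * m1 u = m1 (br ((1 : ℤ) : ℚ) u v) := by
  rw [m1_apply, m1_apply, m1_apply]
  ext i j
  fin_cases i <;> fin_cases j <;> simp [br, Matrix.mul_apply, Fin.sum_univ_four] <;> ring

theorem m2_br (u v : Fin 5 → ℚ) : m2 u * m2 v - m2 v * m2 u = m2 (br ((0 : ℤ) : ℚ) u v) := by
  rw [m2_apply, m2_apply, m2_apply]
  ext i j
  fin_cases i <;> fin_cases j <;> simp [br, Matrix.mul_apply, Fin.sum_univ_five] <;> ring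

section

variable {N : ℕ} (ε : ℤ) (m : (Fin 5 → ℚ) →ₗ[ℚ] Matrix (Fin N) (Fin N) ℚ)

/-- the Lie algebra of matrices -/
def alg (hbr : ∀ u v, m u * m v - m v * m u = m (br (ε : ℚ) u v)) :
    LieSubalgebra ℚ (Matrix (Fin N) (Fin N) ℚ) :=
  { LinearMap.range m with
    lie_mem' := by
      rintro _ _ ⟨u, rfl⟩ ⟨v, rfl⟩
      exact ⟨br (ε : ℚ) u v, (hbr u v).symm⟩ }

/-- the generators -/
def gens : Fin 3 → Matrix (Fin N) (Fin N) ℚ :=
  ![m (Pi.single 0 1), m (Pi.single 1 1), m (Pi.single 4 1)]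

/-- A finitely generated nilpotent group with this Lie algebra. -/
theorem exists_grp (hinj : Function.Injective m) (hup : ∀ v, m v ∈ (matFilt N).F 1)
    (hbr : ∀ u v, m u * m v - m v * m u = m (br (ε : ℚ) u v)) :
    ∃ (G : Type) (_ : Group G) (S : Set G) (c : MalcevCompletion G)
      (E : (Fin 5 → ℚ) ≃ₗ[ℚ] c.QLie), Group.IsNilpotent G ∧ S.Finite ∧
        Subgroup.closure S = ⊤ ∧ ∀ u v, ⁅E u, E v⁆ = E (br (ε : ℚ) u v) := by
  have hX : ∀ i, gens m i ∈ (matFilt N).F 1 := by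
    intro i
    fin_cases i
    · exact hup _
    · exact hup _
    · exact hup _
  have hup' : ∀ Y ∈ alg ε m hbr, Y ∈ (matFilt N).F 1 := by
    rintro _ ⟨v, rfl⟩
    exact hup v
  have hmem : ∀ i, gens m i ∈ alg ε m hbr := by
    intro i
    fin_cases i
    · exact ⟨_, rfl⟩
    · exact ⟨_, rfl⟩
    · exact ⟨_, rfl⟩
  have hgen : ∀ M : LieSubalgebra ℚ (Matrix (Fin N) (Fin N) ℚ), (∀ i, gens m i ∈ M) →
      alg ε m hbr ≤ M := by
    intro M hM
    rintro _ ⟨v, rfl⟩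
    have h0 : m (Pi.single 0 1) ∈ M := hM 0
    have h1 : m (Pi.single 1 1) ∈ M := hM 1
    have h4 : m (Pi.single 4 1) ∈ M := hM 2
    have h2 : m (Pi.single 2 1) ∈ M := by
      have h := M.lie_mem h0 h1
      rw [LieRing.of_associative_ring_bracket, hbr] at h
      have e : br (ε : ℚ) (Pi.single 0 1) (Pi.single 1 1) = Pi.single 2 1 := by
        ext j
        fin_cases j <;> simp [br, Pi.single_apply]
      rwa [e] at h
    have h3 : m (Pi.single 3 1) ∈ M := by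
      have h := M.lie_mem h0 h2
      rw [LieRing.of_associative_ring_bracket, hbr] at h
      have e : br (ε : ℚ) (Pi.single 0 1) (Pi.single 2 1) = Pi.single 3 1 := by
        ext j
        fin_cases j <;> simp [br, Pi.single_apply]
      rwa [e] at h
    have hv : v = v 0 • Pi.single 0 1 + v 1 • Pi.single 1 1 + v 2 • Pi.single 2 1 +
        v 3 • Pi.single 3 1 + v 4 • Pi.single 4 1 := by
      ext j
      fin_cases j <;> simp [Pi.single_apply]
    rw [hv, map_add, map_add, map_add, map_add, map_smul, map_smul, map_smul, map_smul, map_smul]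
    exact M.add_mem (M.add_mem (M.add_mem (M.add_mem (M.smul_mem _ h0) (M.smul_mem _ h1))
      (M.smul_mem _ h2)) (M.smul_mem _ h3)) (M.smul_mem _ h4)
  have hfg : Group.FG ↥(GG (gens m) hX) := GG_fg
  obtain ⟨S, hS, hgS⟩ := exists_gens _ hfg
  let E : (Fin 5 → ℚ) ≃ₗ[ℚ] (LinearMap.range m) := LinearEquiv.ofInjective m hinj
  refine ⟨↥(GG (gens m) hX), inferInstance, S, GGc (alg ε m hbr) hup' hmem hgen, E,
    GG_nilpotent (alg ε m hbr) hup' hmem, hS, hgS, fun u v => ?_⟩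
  apply Subtype.ext
  exact hbr u v

end

section

variable {Q : Type} [Group Q] [Group.IsNilpotent Q] {R : Set Q}

/-- the basis -/
theorem exists_basis (ε : ℤ) {L : Type} [LieRing L] [LieAlgebra ℚ L]
    (E : (Fin 5 → ℚ) ≃ₗ[ℚ] L) (hE : ∀ u v, ⁅E u, E v⁆ = E (br (ε : ℚ) u v)) :
    ∃ b : Module.Basis (Fin 5) ℚ L, ∀ l i, ⁅b l, b i⁆ = ∑ j, (TT ε l j i) • b j := by
  refine ⟨(Pi.basisFun ℚ (Fin 5)).map E, fun l i => ?_⟩
  have hb : ∀ i, ((Pi.basisFun ℚ (Fin 5)).map E) i = E (Pi.single i 1) := fun i => by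
    rw [Module.Basis.map_apply, Pi.basisFun_apply]
  rw [hb, hb, hE, br_single, map_sum]
  refine Finset.sum_congr rfl fun j _ => ?_
  rw [hb, map_zsmul]

theorem growth_one (hR : R.Finite) (hgR : Subgroup.closure R = ⊤) (c : MalcevCompletion Q)
    (E : (Fin 5 → ℚ) ≃ₗ[ℚ] c.QLie) (hE : ∀ u v, ⁅E u, E v⁆ = E (br ((1 : ℤ) : ℚ) u v)) :
    GrowthEquiv (rfGrowth R) (fun n => Nat.log 2 n ^ 5) := by
  obtain ⟨b, hb⟩ := exists_basis 1 E hE
  have hiff : ∀ e, RFull (TT 1) Finset.univ ℂ e ↔ LF c.CLie e := fun e =>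
    rfull_iff c.QLie b (TT 1) hb e
  refine growth_of_LF hR hgR c 5 (by omega) ((hiff 5).1 (rfull_five 1)) fun e' he' h => ?_
  exact not_rfull_one (by omega) ((hiff e').2 h)

theorem growth_zero (hR : R.Finite) (hgR : Subgroup.closure R = ⊤) (c : MalcevCompletion Q)
    (E : (Fin 5 → ℚ) ≃ₗ[ℚ] c.QLie) (hE : ∀ u v, ⁅E u, E v⁆ = E (br ((0 : ℤ) : ℚ) u v)) :
    GrowthEquiv (rfGrowth R) (fun n => Nat.log 2 n ^ 4) := by
  obtain ⟨b, hb⟩ := exists_basis 0 E hE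
  have hiff : ∀ e, RFull (TT 0) Finset.univ ℂ e ↔ LF c.CLie e := fun e =>
    rfull_iff c.QLie b (TT 0) hb e
  refine growth_of_LF hR hgR c 4 (by omega) ((hiff 4).1 rfull_zero) fun e' he' h => ?_
  exact not_rfull_zero (by omega) ((hiff e').2 h)

end

/-- **The asymptotic cone does not determine the growth.** -/
theorem pair :
    ∃ (G₁ G₂ : Type) (_ : Group G₁) (_ : Group G₂) (S₁ : Set G₁) (S₂ : Set G₂)
      (c₁ : MalcevCompletion G₁) (c₂ : MalcevCompletion G₂) (φ : c₁.QLie ≃ₗ[ℚ] c₂.QLie),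
      Group.IsNilpotent G₁ ∧ Group.IsNilpotent G₂ ∧
      S₁.Finite ∧ Subgroup.closure S₁ = ⊤ ∧ S₂.Finite ∧ Subgroup.closure S₂ = ⊤ ∧
      (∀ x : G₁, ∀ n : ℕ, 0 < n → x ^ n = 1 → x = 1) ∧
      (∀ x : G₂, ∀ n : ℕ, 0 < n → x ^ n = 1 → x = 1) ∧
      Module.finrank ℚ c₁.QLie = 5 ∧ Module.finrank ℚ c₂.QLie = 5 ∧
      (∀ i : ℕ, (LieModule.lowerCentralSeries ℚ c₁.QLie c₁.QLie i).toSubmodule.map
        φ.toLinearMap = (LieModule.lowerCentralSeries ℚ c₂.QLie c₂.QLie i).toSubmodule) ∧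
      (∀ i j : ℕ, ∀ x ∈ LieModule.lowerCentralSeries ℚ c₁.QLie c₁.QLie i,
        ∀ y ∈ LieModule.lowerCentralSeries ℚ c₁.QLie c₁.QLie j,
          φ ⁅x, y⁆ - ⁅φ x, φ y⁆ ∈ LieModule.lowerCentralSeries ℚ c₂.QLie c₂.QLie (i + j + 2)) ∧
      GrowthEquiv (rfGrowth S₁) (fun n => Nat.log 2 n ^ 5) ∧
      GrowthEquiv (rfGrowth S₂) (fun n => Nat.log 2 n ^ 4) ∧
      ¬ GrowthEquiv (rfGrowth S₁) (rfGrowth S₂) := by
  obtain ⟨G₁, i₁, S₁, c₁, E₁, hn₁, hS₁, hg₁, hE₁⟩ := exists_grp 1 m1 m1_inj m1_up m1_br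
  obtain ⟨G₂, i₂, S₂, c₂, E₂, hn₂, hS₂, hg₂, hE₂⟩ := exists_grp 0 m2 m2_inj m2_up m2_br
  obtain ⟨φ, hφ1, hφ2⟩ := graded E₁ (fun u v => by simpa using hE₁ u v) E₂
    (fun u v => by simpa using hE₂ u v)
  have g1 := growth_one hS₁ hg₁ c₁ E₁ hE₁
  have g2 := growth_zero hS₂ hg₂ c₂ E₂ hE₂
  refine ⟨G₁, G₂, i₁, i₂, S₁, S₂, c₁, c₂, φ, hn₁, hn₂, hS₁, hg₁, hS₂, hg₂, tf_of_completion c₁,
    tf_of_completion c₂, ?_, ?_, hφ1, hφ2, g1, g2, fun h => ?_⟩
  · rw [← E₁.finrank_eq, Module.finrank_fin_fun]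
  · rw [← E₂.finrank_eq, Module.finrank_fin_fun]
  · have h5 : (5 : ℕ) = 4 := eq_of_growthEquiv
      (GrowthEquiv.trans (GrowthEquiv.symm g1) (GrowthEquiv.trans h g2))
    omega

end Pool.Agent.Q108.NRF
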